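import Pool.Agent.Y330.J.A7
import Pool.Agent.H789R2.GP.Final

set_option autoImplicit false
set_option linter.unusedSectionVars false

open Filter Topology Set Metric unitInterval

namespace Pool.Agent.NH49.TA

open Pool.Agent.H789R2.AN Pool.Agent.H789R2.GP

section action

variable {X : Type*} [MetricSpace X] {G : Type*} [AddCommGroup G]

/-- `A` is an action of `G` -/
def Act (A : G → X ≃ₜ X) : Prop := ∀ a b x, A (a + b) x = A a (A b x)

variable {A : G → X ≃ₜ X}

theorem Act.zero (h : Act A) (x : X) : A 0 x = x := by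
  have h1 := h 0 0 x
  rw [add_zero] at h1
  exact ((A 0).injective h1).symm

theorem Act.comm (h : Act A) (a b : G) (x : X) : A a (A b x) = A b (A a x) := by
  rw [← h, ← h, add_comm]

theorem Act.symm (h : Act A) (a : G) (x : X) : (A a).symm x = A (-a) x := by
  rw [Homeomorph.symm_apply_eq, ← h, add_neg_cancel, h.zero]

theorem Act.iter (h : Act A) (a : G) (n : ℕ) (x : X) : (A a)^[n] x = A (n • a) x := by
  induction n with
  | zero => rw [zero_smul, h.zero]; rfl
  | succ n ih => rw [Function.iterate_succ_apply', ih, succ_nsmul', h]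

theorem Act.symm_eq (h : Act A) (a : G) : (A a).symm = A (-a) := by
  ext x
  exact h.symm a x

theorem Act.iter_symm (h : Act A) (a : G) (n : ℕ) (x : X) :
    (A a).symm^[n] x = A (-(n • a)) x := by
  rw [h.symm_eq, h.iter, smul_neg]

theorem Act.sr (h : Act A) (a : G) {ε : ℝ} {x y : X} :
    SR (A a) ε x y ↔ ∀ k : ℕ, dist (A (k • a) x) (A (k • a) y) ≤ ε := by
  unfold SR
  simp only [h.iter]

theorem Act.sr_symm (h : Act A) (a : G) {ε : ℝ} {x y : X} :
    SR (A a).symm ε x y ↔ ∀ k : ℕ, dist (A (-(k • a)) x) (A (-(k • a)) y) ≤ ε := by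
  unfold SR
  simp only [h.iter_symm]

/-- closeness with respect to a submonoid -/
def WR (A : G → X ≃ₜ X) (P : AddSubmonoid G) (ε : ℝ) (x y : X) : Prop :=
  ∀ w ∈ P, dist (A w x) (A w y) ≤ ε

theorem WR.mono {P Q : AddSubmonoid G} {ε ε' : ℝ} {x y : X} (h : WR A P ε x y) (hQ : Q ≤ P)
    (he : ε ≤ ε') : WR A Q ε' x y := fun w hw => (h w (hQ hw)).trans he

theorem WR.map (hA : Act A) {P : AddSubmonoid G} {ε : ℝ} {x y : X} (h : WR A P ε x y) {τ : G}
    (hτ : τ ∈ P) : WR A P ε (A τ x) (A τ y) := fun w hw => by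
  rw [← hA, ← hA]
  exact h _ (P.add_mem hw hτ)

theorem WR.dle (hA : Act A) {P : AddSubmonoid G} {ε : ℝ} {x y : X} (h : WR A P ε x y) :
    dist x y ≤ ε := by
  have := h 0 P.zero_mem
  rwa [hA.zero, hA.zero] at this

theorem WR.of_sr (hA : Act A) {b : G} {ε : ℝ} {x y : X} :
    WR A (AddSubmonoid.closure {-b}) ε x y ↔ SR (A b).symm ε x y := by
  rw [hA.sr_symm]
  constructor
  · intro h k
    apply h
    rw [AddSubmonoid.mem_closure_singleton]
    exact ⟨k, smul_neg k b⟩
  · intro h w hw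
    obtain ⟨k, rfl⟩ := AddSubmonoid.mem_closure_singleton.1 hw
    rw [smul_neg]
    exact h k

/-- small displacements stay small under `v`, in the metric of `u` -/
def NS (A : G → X ≃ₜ X) (u v : G) : Prop := ∀ ε > 0, ∃ η > 0, ∀ x y, SR (A u) η x y →
  ∀ m : ℕ, dist (A (m • v) x) (A (m • v) y) ≤ ε

theorem ns_of_nest [CompactSpace X] (hA : Act A) {u v : G} (h : Nest (A u) (A v)) : NS A u v := by
  obtain ⟨ε₀, hε₀, h0⟩ := h
  intro ε hε
  obtain ⟨M, hM⟩ := dec_pow (c := ε₀) hε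
  obtain ⟨η, hη, h1⟩ := T1_unif (A v) M hε
  refine ⟨min ε₀ (η / 2), by positivity, fun x y hxy m => ?_⟩
  rw [← hA.iter, ← hA.iter]
  rcases le_total m M with hm | hm
  · refine (h1 m hm x y ?_).le
    have h2 : dist x y ≤ min ε₀ (η / 2) := hxy 0
    have := min_le_right ε₀ (η / 2)
    linarith
  · exact (h0 x y (hxy.mono (min_le_left _ _)) m).trans (hM m hm)

theorem NS.sr (hA : Act A) {u v : G} (h : NS A u v) {ε : ℝ} (hε : 0 < ε) :
    ∃ η > 0, ∀ x y, SR (A u) η x y → ∀ m : ℕ, SR (A u) ε (A (m • v) x) (A (m • v) y) := by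
  obtain ⟨η, hη, h1⟩ := h ε hε
  refine ⟨η, hη, fun x y hxy m => (hA.sr u).2 fun k => ?_⟩
  rw [hA.comm (k • u), hA.comm (k • u)]
  refine h1 _ _ ((hA.sr u).2 fun l => ?_) m
  rw [← hA, ← hA, ← add_smul]
  exact (hA.sr u).1 hxy _

end action

end Pool.Agent.NH49.TA
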