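import Pool.Agent.NH49.TA.B1

set_option autoImplicit false
set_option linter.unusedSectionVars false

open Filter Topology Set Metric unitInterval

namespace Pool.Agent.NH49.TA

open Pool.Agent.H789R2.AN Pool.Agent.H789R2.GP

variable {X : Type*} [MetricSpace X] [CompactSpace X] {G : Type*} [AddCommGroup G]
  {A : G → X ≃ₜ X}

theorem unif_finset (A : G → X ≃ₜ X) (F : Finset G) {ε : ℝ} (hε : 0 < ε) :
    ∃ η > 0, ∀ s ∈ F, ∀ x y : X, dist x y < η → dist (A s x) (A s y) < ε := by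
  classical
  induction F using Finset.induction_on with
  | empty => exact ⟨1, one_pos, fun s hs => absurd hs (Finset.notMem_empty _)⟩
  | insert a F _ ih =>
    obtain ⟨η, hη, h1⟩ := ih
    have hu : UniformContinuous (A a) :=
      CompactSpace.uniformContinuous_of_continuous (A a).continuous
    rw [Metric.uniformContinuous_iff] at hu
    obtain ⟨η', hη', h2⟩ := hu ε hε
    refine ⟨min η η', lt_min hη hη', fun s hs x y hxy => ?_⟩
    rcases Finset.mem_insert.1 hs with rfl | hs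
    · exact h2 (lt_of_lt_of_le hxy (min_le_right _ _))
    · exact h1 s hs x y (lt_of_lt_of_le hxy (min_le_left _ _))

/-- decomposition of a displacement, uniformly -/
theorem dec (hA : Act A) {c : G} {c' : ℝ} (hc : LP (A c) c') (F : Finset G) {ε : ℝ}
    (hε : 0 < ε) : ∃ η > 0, ∀ x y, WR A (AddSubmonoid.closure (F : Set G)) η x y → ∃ z,
      (∀ m : ℕ, WR A (AddSubmonoid.closure (F : Set G)) ε (A (m • c) x) (A (m • c) z)) ∧
      ∀ m : ℕ, WR A (AddSubmonoid.closure (F : Set G)) ε (A (-(m • c)) z) (A (-(m • c)) y) := by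
  obtain ⟨br, δ, hδ, b1, b2, b3, -⟩ := exists_br hc
  have hc'0 := hc.c_pos
  obtain ⟨ε₀, hε₀, h0⟩ := unif_finset A F (show (0:ℝ) < c' / 3 by positivity)
  obtain ⟨η₁, hη₁, h1⟩ := b2 (ε₀ / 2) (by positivity)
  obtain ⟨η₂, hη₂, h2⟩ := b2 ε hε
  obtain ⟨η, hη⟩ : ∃ η, η = min (min η₁ η₂) δ / 2 := ⟨_, rfl⟩
  have hm0 : 0 < min (min η₁ η₂) δ := by positivity
  have hη0 : 0 < η := by rw [hη]; positivity
  have hηlt : η < min (min η₁ η₂) δ := by rw [hη]; linarith
  have e1 : η < η₁ := lt_of_lt_of_le hηlt ((min_le_left _ _).trans (min_le_left _ _))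
  have e2 : η < η₂ := lt_of_lt_of_le hηlt ((min_le_left _ _).trans (min_le_right _ _))
  have e3 : η < δ := lt_of_lt_of_le hηlt (min_le_right _ _)
  have step : ∀ s ∈ F, ∀ x y, dist x y < η₁ → dist (A s x) (A s y) < δ →
      A s (br x y) = br (A s x) (A s y) := by
    intro s hs x y hxy hgxy
    obtain ⟨s1, s2⟩ := h1 x y hxy
    refine b3 _ _ _ hgxy ?_ ?_
    · rw [hA.sr] at s1 ⊢
      intro k
      rw [hA.comm (k • c), hA.comm (k • c)]
      exact (h0 s hs _ _ (lt_of_le_of_lt (s1 k) (by linarith))).le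
    · rw [hA.sr_symm] at s2 ⊢
      intro k
      rw [hA.comm (-(k • c)), hA.comm (-(k • c))]
      exact (h0 s hs _ _ (lt_of_le_of_lt (s2 k) (by linarith))).le
  have equiv : ∀ w ∈ AddSubmonoid.closure (F : Set G), ∀ x y,
      WR A (AddSubmonoid.closure (F : Set G)) η x y → A w (br x y) = br (A w x) (A w y) := by
    intro w hw
    induction hw using AddSubmonoid.closure_induction with
    | mem s hs =>
      intro x y hxy
      have hs' : s ∈ AddSubmonoid.closure (F : Set G) := AddSubmonoid.subset_closure hs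
      exact step s (by simpa using hs) x y (lt_of_le_of_lt (hxy.dle hA) e1)
        (lt_of_le_of_lt (hxy s hs') e3)
    | zero =>
      intro x y _
      rw [hA.zero, hA.zero, hA.zero]
    | add s t hs ht ihs iht =>
      intro x y hxy
      rw [hA, iht x y hxy, ihs _ _ (hxy.map hA ht), ← hA, ← hA]
  refine ⟨η, hη0, fun x y hxy => ⟨br x y, fun m w hw => ?_, fun m w hw => ?_⟩⟩
  · rw [hA.comm w, hA.comm w, equiv w hw x y hxy]
    exact (hA.sr c).1 (h2 _ _ (lt_of_le_of_lt (hxy w hw) e2)).1 m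
  · rw [hA.comm w, hA.comm w, equiv w hw x y hxy]
    exact (hA.sr_symm c).1 (h2 _ _ (lt_of_le_of_lt (hxy w hw) e2)).2.symm' m

/-- chains -/
def Ch (St : X → X → Prop) : ℕ → X → X → Prop
  | 0, x, y => x = y
  | n + 1, x, y => ∃ z, St x z ∧ Ch St n z y

theorem Ch.mono {St St' : X → X → Prop} (h : ∀ x y, St x y → St' x y) :
    ∀ (n : ℕ) (x y : X), Ch St n x y → Ch St' n x y
  | 0, _, _, hxy => hxy
  | n + 1, _, _, ⟨z, h1, h2⟩ => ⟨z, h _ _ h1, Ch.mono h n _ _ h2⟩

theorem mem_insert_closure {F : Set G} {c w : G}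
    (h : w ∈ AddSubmonoid.closure (insert (-c) F)) :
    ∃ τ ∈ AddSubmonoid.closure F, ∃ m : ℕ, w = τ + -(m • c) := by
  rw [Set.insert_eq, AddSubmonoid.closure_union, AddSubmonoid.mem_sup] at h
  obtain ⟨y, hy, z, hz, rfl⟩ := h
  obtain ⟨m, rfl⟩ := AddSubmonoid.mem_closure_singleton.1 hy
  exact ⟨z, hz, m, by rw [smul_neg, add_comm]⟩

/-- decomposition of a displacement into displacements contracted by members of a list -/
theorem chain_dec (hA : Act A) (l : List G) : ∀ (F : Finset G),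
    (∀ c ∈ l, ∃ c', LP (A c) c') →
    (∃ ε > 0, ∀ x y, WR A (AddSubmonoid.closure ((F : Set G) ∪ {w | -w ∈ l})) ε x y → x = y) →
    ∀ ε > 0, ∃ η > 0, ∀ x y, WR A (AddSubmonoid.closure (F : Set G)) η x y →
      Ch (fun x z => ∃ c ∈ l, ∀ m : ℕ, WR A (AddSubmonoid.closure (F : Set G)) ε
        (A (m • c) x) (A (m • c) z)) l.length x y := by
  classical
  induction l with
  | nil =>
    intro F _ hsep ε hε
    obtain ⟨ε', hε', h1⟩ := hsep
    refine ⟨ε', hε', fun x y hxy => h1 x y ?_⟩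
    have e : (F : Set G) ∪ {w | -w ∈ ([] : List G)} = F := by
      simp
    rwa [e]
  | cons c l ih =>
    intro F hLP hsep ε hε
    obtain ⟨c', hc'⟩ := hLP c List.mem_cons_self
    obtain ⟨η₁, hη₁, h1⟩ := ih (insert (-c) F) (fun d hd => hLP d (List.mem_cons_of_mem _ hd)) (by
      obtain ⟨ε', hε', h2⟩ := hsep
      refine ⟨ε', hε', fun x y hxy => h2 x y ?_⟩
      have e : ((insert (-c) F : Finset G) : Set G) ∪ {w | -w ∈ l} =
          (F : Set G) ∪ {w | -w ∈ c :: l} := by
        ext w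
        simp only [Finset.coe_insert, Set.mem_union, Set.mem_insert_iff, Set.mem_setOf_eq,
          List.mem_cons, neg_eq_iff_eq_neg]
        tauto
      rwa [← e]) ε hε
    obtain ⟨η, hη, h2⟩ := dec hA hc' F (lt_min hε hη₁)
    refine ⟨η, hη, fun x y hxy => ?_⟩
    obtain ⟨z, hz1, hz2⟩ := h2 x y hxy
    refine ⟨z, ⟨c, List.mem_cons_self, fun m => (hz1 m).mono le_rfl (min_le_left _ _)⟩, ?_⟩
    refine Ch.mono ?_ _ _ _ (h1 z y ?_)
    · rintro u w ⟨d, hd, h3⟩
      refine ⟨d, List.mem_cons_of_mem _ hd, fun m => (h3 m).mono ?_ le_rfl⟩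
      apply AddSubmonoid.closure_mono
      rw [Finset.coe_insert]
      exact Set.subset_insert _ _
    · intro w hw
      rw [Finset.coe_insert] at hw
      obtain ⟨τ, hτ, m, rfl⟩ := mem_insert_closure hw
      rw [hA, hA]
      exact (hz2 m τ hτ).trans (min_le_right _ _)

end Pool.Agent.NH49.TA
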