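import Pool.Agent.NH49.TA.B2

set_option autoImplicit false
set_option linter.unusedSectionVars false

open Filter Topology Set Metric unitInterval

namespace Pool.Agent.NH49.TA

open Pool.Agent.H789R2.AN Pool.Agent.H789R2.GP Pool.Agent.TH289.K

variable {X : Type*} [MetricSpace X] [CompactSpace X] {G : Type*} [AddCommGroup G]
  {A : G → X ≃ₜ X}

/-- level of an element -/
theorem sr_forward (hA : Act A) {b : G} {c : ℝ} (hg : LP (A b) c) {η : ℝ} {k₀ : ℕ}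
    (hk : ∀ m ≥ k₀, c * (1 / 2) ^ m ≤ η) {j i : ℕ} (hi : j + k₀ ≤ i) {x y : X}
    (h : SR (A b) c (A (j • b) x) (A (j • b) y)) : SR (A b) η (A (i • b) x) (A (i • b) y) := by
  intro k
  have h1 := hg.cS _ _ h (k + i - j)
  rw [hA.iter, hA.iter, ← hA, ← hA, ← add_smul, Nat.sub_add_cancel (by omega)] at h1
  rw [hA.iter, hA.iter, ← hA, ← hA, ← add_smul]
  exact h1.trans (hk _ (by omega))

theorem sr_backward (hA : Act A) {b : G} {ε : ℝ} {j i : ℕ} (hi : j ≤ i) {x y : X}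
    (h : SR (A b).symm ε (A (-(j • b)) x) (A (-(j • b)) y)) :
    SR (A b).symm ε (A (-(i • b)) x) (A (-(i • b)) y) := by
  intro k
  have h1 := h (k + (i - j))
  rw [hA.iter_symm, hA.iter_symm, ← hA, ← hA] at h1
  rw [hA.iter_symm, hA.iter_symm, ← hA, ← hA]
  have e : -((k + (i - j)) • b) + -(j • b) = -(k • b) + -(i • b) := by
    rw [← neg_add, ← neg_add, ← add_smul, ← add_smul]
    congr 2
    omega
  rwa [e] at h1

theorem sr_fw (hA : Act A) {b : G} {ε : ℝ} {j i : ℕ} (hi : j ≤ i) {x y : X}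
    (h : SR (A b) ε (A (j • b) x) (A (j • b) y)) :
    SR (A b) ε (A (i • b) x) (A (i • b) y) := by
  intro k
  have h1 := h (k + (i - j))
  rw [hA.iter, hA.iter, ← hA, ← hA] at h1
  rw [hA.iter, hA.iter, ← hA, ← hA]
  have e : (k + (i - j)) • b + j • b = k • b + i • b := by
    rw [← add_smul, ← add_smul]
    congr 1
    omega
  rwa [e] at h1

/-- one step: the distortion of a displacement contracted by a nearly singular element -/
def Stp (A : G → X ≃ₜ X) (b : G) (c ε₀ : ℝ) (P Q' P' : ℕ) (d : G) (η : ℝ) (k₀ : ℕ) : Prop :=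
  ∀ (j : ℕ) (x x' z z' : X), QJ (A b) x x' z z' → SR (A b) c (A (j • b) x) (A (j • b) x') →
    (∀ m : ℕ, SR (A b).symm η (A (m • d) x) (A (m • d) z)) →
    SR (A b).symm ε₀ (A (-((Q' * ((j + k₀) / P + 1)) • b)) x')
      (A (-((Q' * ((j + k₀) / P + 1)) • b)) z') ∧
    SR (A b) c (A ((P' * ((j + k₀) / P + 1)) • b) z) (A ((P' * ((j + k₀) / P + 1)) • b) z')

theorem Stp.mono (hA : Act A) {b : G} {c ε₀ : ℝ} {P Q' P' : ℕ} {d : G} {η η' : ℝ} {k₀ k₁ : ℕ}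
    (h : Stp A b c ε₀ P Q' P' d η k₀) (hη : η' ≤ η) (hk : k₀ ≤ k₁) :
    Stp A b c ε₀ P Q' P' d η' k₁ := by
  intro j x x' z z' hQ h1 h2
  obtain ⟨h3, h4⟩ := h j x x' z z' hQ h1 fun m => (h2 m).mono hη
  have h5 : (j + k₀) / P + 1 ≤ (j + k₁) / P + 1 :=
    Nat.add_le_add_right (Nat.div_le_div_right (by omega)) 1
  exact ⟨sr_backward hA (Nat.mul_le_mul_left _ h5) h3, sr_fw hA (Nat.mul_le_mul_left _ h5) h4⟩

theorem step1 (hA : Act A) {b a : G} {c c₁ : ℝ} (hg : LP (A b) c) (T : QS (A b) c₁)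
    (hc₁ : 0 < c₁) (hT : T.Q = QJ (A b)) {P Q' P' : ℕ} (hP : 1 ≤ P) (n1 : NS A b (a - P • b))
    (n2 : NS A (-b) (-(Q' • b + a))) (n3 : NS A b (P' • b - a)) {ε₀ : ℝ} (hε₀ : 0 < ε₀) :
    ∃ η > 0, ∃ k₀ : ℕ, Stp A b c ε₀ P Q' P' a η k₀ := by
  have hc := hg.c_pos
  obtain ⟨η₂, hη₂, h2⟩ := NS.sr hA n2 hε₀
  obtain ⟨η₃, hη₃, h3⟩ := NS.sr hA n3 hc
  obtain ⟨ηu, hηu, hU⟩ := T.contU 0 η₂ hη₂
  obtain ⟨ηs, hηs, hS⟩ := T.contS 0 η₃ hη₃
  obtain ⟨η₁, hη₁, h1⟩ := NS.sr hA n1 (lt_min hηs hc₁)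
  obtain ⟨k₀, hk₀⟩ := dec_pow (c := c) hη₁
  refine ⟨min ηu c₁, lt_min hηu hc₁, k₀, fun j x x' z z' hQ hj hm => ?_⟩
  set m := (j + k₀) / P + 1 with hmd
  have hPm : j + k₀ ≤ P * m := (Nat.lt_mul_div_succ (j + k₀) (by omega)).le
  have h4 := sr_forward hA hg hk₀ hPm hj
  have h5 := h1 _ _ h4 m
  rw [← hA, ← hA, show m • (a - P • b) + (P * m) • b = m • a by
    rw [smul_sub, smul_smul, mul_comm m P, sub_add_cancel]] at h5
  have hQ' : QJ (A b) (A (m • a) x) (A (m • a) x') (A (m • a) z) (A (m • a) z') := by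
    have := hQ.iter (φ := A a) (fun w => hA.comm _ _ _) m
    rwa [hA.iter, hA.iter, hA.iter, hA.iter] at this
  have h6 := hm m
  have h7 := hU (A (m • a) x) (A (m • a) x') (A (m • a) z) (A (m • a) z') (by rw [hT]; exact hQ')
    (h6.mono (min_le_left _ _)) (h5.mono (min_le_right _ _))
  have h8 := hS (A (m • a) x) (A (m • a) x') (A (m • a) z) (A (m • a) z') (by rw [hT]; exact hQ')
    (h5.mono (min_le_left _ _)) (h6.mono (min_le_right _ _))
  constructor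
  · rw [hA.symm_eq] at h7 ⊢
    have h9 := h2 _ _ h7 m
    rwa [← hA, ← hA, show m • -(Q' • b + a) + m • a = -((Q' * m) • b) by
      rw [smul_neg, smul_add, smul_smul, mul_comm m Q']
      abel] at h9
  · have h9 := h3 _ _ h8 m
    rwa [← hA, ← hA, show m • (P' • b - a) + m • a = (P' * m) • b by
      rw [smul_sub, smul_smul, mul_comm m P', sub_add_cancel]] at h9

theorem step2 (hA : Act A) {b a d : G} {c c₁ : ℝ} (hg : LP (A b) c) (T : QS (A b) c₁)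
    (hc₁ : 0 < c₁) (hT : T.Q = QJ (A b)) {P Q' P' : ℕ} (hP : 1 ≤ P) (n0 : NS A d a)
    (n1 : NS A b (a - P • b))
    (n2 : NS A (-b) (-(Q' • b + a))) (n3 : NS A b (P' • b - a)) {ε₀ : ℝ} (hε₀ : 0 < ε₀) :
    ∃ η > 0, ∃ k₀ : ℕ, Stp A b c ε₀ P Q' P' d η k₀ := by
  obtain ⟨η, hη, k₀, h1⟩ := step1 hA hg T hc₁ hT hP n1 n2 n3 hε₀
  obtain ⟨η', hη', h2⟩ := n0 η hη
  refine ⟨η', hη', k₀, fun j x x' z z' hQ hj hm => h1 j x x' z z' hQ hj fun m => ?_⟩
  rw [hA.sr_symm]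
  intro k
  rw [hA.comm (-(k • b)), hA.comm (-(k • b))]
  refine h2 _ _ ?_ m
  rw [hA.sr]
  intro l
  rw [hA.comm (l • d), hA.comm (l • d)]
  exact (hA.sr_symm b).1 (hm l) k

theorem step_list (hA : Act A) {b : G} {c c₁ : ℝ} (hg : LP (A b) c) (T : QS (A b) c₁)
    (hc₁ : 0 < c₁) (hT : T.Q = QJ (A b)) {P Q' P' : ℕ} (hP : 1 ≤ P) {ε₀ : ℝ} (hε₀ : 0 < ε₀)
    (l : List G) (hl : ∀ d ∈ l, ∃ a, NS A d a ∧ NS A b (a - P • b) ∧
      NS A (-b) (-(Q' • b + a)) ∧ NS A b (P' • b - a)) :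
    ∃ η > 0, ∃ k₀ : ℕ, ∀ d ∈ l, Stp A b c ε₀ P Q' P' d η k₀ := by
  induction l with
  | nil => exact ⟨1, one_pos, 0, fun d hd => absurd hd List.not_mem_nil⟩
  | cons d l ih =>
    obtain ⟨η, hη, k₀, h1⟩ := ih fun e he => hl e (List.mem_cons_of_mem _ he)
    obtain ⟨a, n0, n1, n2, n3⟩ := hl d List.mem_cons_self
    obtain ⟨η', hη', k₁, h2⟩ := step2 hA hg T hc₁ hT hP n0 n1 n2 n3 hε₀
    refine ⟨min η η', lt_min hη hη', max k₀ k₁, fun e he => ?_⟩
    rcases List.mem_cons.1 he with rfl | he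
    · exact h2.mono hA (min_le_right _ _) (le_max_right _ _)
    · exact (h1 e he).mono hA (min_le_left _ _) (le_max_left _ _)

/-- distortion along a chain -/
theorem chain_bound (hA : Act A) {b : G} {c c₁ : ℝ} (hg : LP (A b) c) (T : QS (A b) c₁)
    (hT : T.Q = QJ (A b)) {P Q' P' : ℕ} (hP : 1 ≤ P) (hPP : P ≤ P') {ε₀ η : ℝ}
    (hη : η ≤ c) {k₀ : ℕ} {l : List G} (hl : ∀ d ∈ l, Stp A b c ε₀ P Q' P' d η k₀) (n : ℕ) :
    ∀ (j : ℕ) (x x' y y' : X), Ch (fun x z => ∃ d ∈ l, ∀ m : ℕ,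
      SR (A b).symm η (A (m • d) x) (A (m • d) z)) n x y → QJ (A b) x x' y y' →
      SR (A b) c (A (j • b) x) (A (j • b) x') →
      SR (A b).symm (n * ε₀)
        (A (-((Q' * (((fun i => P' * ((i + k₀) / P + 1))^[n] j + k₀) / P + 1)) • b)) x')
        (A (-((Q' * (((fun i => P' * ((i + k₀) / P + 1))^[n] j + k₀) / P + 1)) • b)) y') := by
  set f : ℕ → ℕ := fun i => P' * ((i + k₀) / P + 1) with hf
  have hf1 : ∀ i, i ≤ f i := by
    intro i
    have h1 : i + k₀ < P * ((i + k₀) / P + 1) := Nat.lt_mul_div_succ (i + k₀) (by omega)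
    have h2 : P * ((i + k₀) / P + 1) ≤ P' * ((i + k₀) / P + 1) := Nat.mul_le_mul_right _ hPP
    show i ≤ P' * ((i + k₀) / P + 1)
    omega
  have hf2 : ∀ n i, i ≤ f^[n] i := by
    intro n
    induction n with
    | zero => intro i; exact le_rfl
    | succ n ih => intro i; rw [Function.iterate_succ_apply]; exact (hf1 i).trans (ih _)
  induction n with
  | zero =>
    intro j x x' y y' hch hQ hj
    have hxy : x = y := hch
    subst hxy
    have e : x' = y' := by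
      refine T.unique x x' x x' y' (qs_degS T ?_) (by rw [hT]; exact hQ)
      exact hQ.choose
    subst e
    intro k
    rw [dist_self]
    simp
  | succ n ih =>
    intro j x x' y y' hch hQ hj
    obtain ⟨z, ⟨d, hd, hz⟩, hch'⟩ := hch
    have hxz : SR (A b).symm c x z := by
      have := (hz 0).mono hη
      rwa [zero_smul, hA.zero, hA.zero] at this
    have hQ' : T.Q x x' y y' := by rw [hT]; exact hQ
    obtain ⟨z', hz'⟩ := T.ex x x' z (by exact hQ.choose) (WS.of_SR (hg.cU _ _ hxz))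
    have h1 : T.Q z z' y y' := T.compU _ _ _ _ _ _ (T.flipU _ _ _ _ hz') hQ'
    rw [hT] at hz' h1
    obtain ⟨h2, h3⟩ := hl d hd j x x' z z' hz' hj hz
    have h4 := ih (f j) z z' y y' hch' h1 h3
    rw [Function.iterate_succ_apply]
    have h5 : Q' * ((j + k₀) / P + 1) ≤ Q' * ((f^[n] (f j) + k₀) / P + 1) := by
      apply Nat.mul_le_mul_left
      apply Nat.add_le_add_right
      apply Nat.div_le_div_right
      have := (hf1 j).trans (hf2 n (f j))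
      omega
    have h6 := (sr_backward hA h5 h2).tr h4
    refine h6.mono (le_of_eq ?_)
    push_cast
    ring

theorem iter_bound {Λ P k₀ : ℕ} (n : ℕ) : ∃ E : ℕ, ∀ j : ℕ,
    (fun i => (Λ * P) * ((i + k₀) / P + 1))^[n] j ≤ Λ ^ n * j + E := by
  induction n with
  | zero => exact ⟨0, fun j => by simp⟩
  | succ n ih =>
    obtain ⟨E, hE⟩ := ih
    refine ⟨Λ * (E + k₀) + Λ * P, fun j => ?_⟩
    rw [Function.iterate_succ_apply']
    set u := (fun i => (Λ * P) * ((i + k₀) / P + 1))^[n] j with hu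
    have h1 := hE j
    rw [← hu] at h1
    show Λ * P * ((u + k₀) / P + 1) ≤ _
    have h2 : P * ((u + k₀) / P) ≤ u + k₀ := Nat.mul_div_le _ _
    calc Λ * P * ((u + k₀) / P + 1) = Λ * (P * ((u + k₀) / P)) + Λ * P := by ring
      _ ≤ Λ * (u + k₀) + Λ * P := Nat.add_le_add_right (Nat.mul_le_mul_left _ h2) _
      _ ≤ Λ * (Λ ^ n * j + E + k₀) + Λ * P :=
          Nat.add_le_add_right (Nat.mul_le_mul_left _ (by omega)) _
      _ = _ := by ring

theorem arith {D Λ n N' r t₀ j t : ℕ} (hN' : 1 ≤ N') (hD : 1 ≤ D) (hΛ : 1 ≤ Λ)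
    (ht : t ≤ Λ ^ r * j + t₀) :
    (D * n) * (t / ((N' * D * Λ ^ r) * n) + 1) ≤ j / N' + (1 + D * t₀ + D * n) := by
  have hΛr : 1 ≤ Λ ^ r := Nat.one_le_pow _ _ hΛ
  have hN : 0 < N' * D * Λ ^ r := by positivity
  have h1 : (D * n) * (t / ((N' * D * Λ ^ r) * n)) ≤ j / N' + (1 + D * t₀) := by
    have h2 : (D * n) * (t / ((N' * D * Λ ^ r) * n)) ≤ ((D * n) * t) / ((N' * D * Λ ^ r) * n) :=
      Nat.mul_div_le_mul_div_assoc _ _ _
    refine h2.trans ?_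
    apply Nat.div_le_of_le_mul
    have h3 : j < N' * (j / N' + 1) := Nat.lt_mul_div_succ j (by omega)
    calc D * n * t ≤ D * n * (Λ ^ r * j + t₀) := Nat.mul_le_mul_left _ ht
      _ = D * n * Λ ^ r * j + n * (D * t₀) := by ring
      _ ≤ D * n * Λ ^ r * (N' * (j / N' + 1)) + n * (N' * D * Λ ^ r) * (D * t₀) := by
          apply Nat.add_le_add
          · exact Nat.mul_le_mul_left _ h3.le
          · apply Nat.mul_le_mul_right
            exact Nat.le_mul_of_pos_right _ hN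
      _ = _ := by ring
  calc (D * n) * (t / ((N' * D * Λ ^ r) * n) + 1)
      = (D * n) * (t / ((N' * D * Λ ^ r) * n)) + D * n := by ring
    _ ≤ _ := by omega

/-- slow distortion of the holonomies, in terms of quadrilaterals -/
theorem bq (hA : Act A) {b : G} {c c₁ : ℝ} (hg : LP (A b) c) (T : QS (A b) c₁)
    (hc₁ : 0 < c₁) (hT : T.Q = QJ (A b)) (l : List G) (hl : ∀ d ∈ l, ∃ c', LP (A d) c')
    (hsep : ∃ ε > 0, ∀ x y, WR A (AddSubmonoid.closure ({-b} ∪ {w | -w ∈ l})) ε x y → x = y)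
    {D Λ : ℕ} (hD : 1 ≤ D) (hΛ : 1 ≤ Λ)
    (hnw : ∀ N ≥ 1, ∃ n ≥ 1, ∀ d ∈ l, ∃ a : G, NS A d a ∧ NS A b (a - (N * n) • b) ∧
      NS A (-b) (-((D * n) • b + a)) ∧ NS A b ((Λ * (N * n)) • b - a)) {ρ : ℝ} (hρ : 0 < ρ) :
    ∀ N' ≥ 1, ∃ C : ℕ, ∀ (j : ℕ) (x x' y y' : X), QJ (A b) x x' y y' →
      SR (A b) c (A (j • b) x) (A (j • b) x') → SR (A b).symm c x y →
      SR (A b).symm ρ (A (-((j / N' + C) • b)) x') (A (-((j / N' + C) • b)) y') := by
  intro N' hN'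
  have hc := hg.c_pos
  set r := l.length with hr
  have hΛr : 1 ≤ Λ ^ r := Nat.one_le_pow _ _ hΛ
  set N := N' * D * Λ ^ r with hN
  have hN1 : 1 ≤ N := Nat.one_le_iff_ne_zero.2 (by positivity)
  obtain ⟨n, hn, hnl⟩ := hnw N hN1
  have hε₀ : 0 < ρ / (r + 1) := by positivity
  have hNn : 1 ≤ N * n := Nat.one_le_iff_ne_zero.2 (by positivity)
  obtain ⟨η, hη, k₀, hst⟩ := step_list hA hg T hc₁ hT (P := N * n) (Q' := D * n)
    (P' := Λ * (N * n)) hNn hε₀ l hnl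
  obtain ⟨η', hη', hch⟩ := chain_dec hA l {-b} hl (by simpa using hsep) (min η c) (lt_min hη hc)
  obtain ⟨i₀, hi₀⟩ := dec_pow (c := c) hη'
  obtain ⟨E, hE⟩ := iter_bound (Λ := Λ) (P := N * n) (k₀ := k₀) r
  refine ⟨1 + D * (Λ ^ r * i₀ + E + k₀) + D * n + i₀, fun j x x' y y' hQ hj hxy => ?_⟩
  have h1 : SR (A b).symm η' (A (-(i₀ • b)) x) (A (-(i₀ • b)) y) := by
    intro k
    have h2 := hg.cU _ _ hxy (k + i₀)
    rw [Function.iterate_add_apply, Function.iterate_add_apply, hA.iter_symm b i₀,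
      hA.iter_symm b i₀] at h2
    exact h2.trans (hi₀ _ (by omega))
  have h2 := hch _ _ ((WR.of_sr hA).2 h1 |>.mono (by simp) le_rfl)
  have h3 := Ch.mono (St' := fun x z => ∃ d ∈ l, ∀ m : ℕ,
      SR (A b).symm (min η c) (A (m • d) x) (A (m • d) z)) (by
    rintro u w ⟨d, hd, h4⟩
    refine ⟨d, hd, fun m => (WR.of_sr hA).1 ((h4 m).mono ?_ le_rfl)⟩
    simp) _ _ _ h2
  have h4 := chain_bound hA hg T hT hNn (Nat.le_mul_of_pos_left _ (by omega)) (min_le_right η c)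
    (fun d hd => (hst d hd).mono hA (min_le_left _ _) le_rfl) r (j + i₀) _ (A (-(i₀ • b)) x') _
    (A (-(i₀ • b)) y') h3 (by
      have := QJ.iterL hQ i₀
      rwa [hA.iter_symm, hA.iter_symm, hA.iter_symm, hA.iter_symm] at this) (by
      rw [← hA, ← hA, show (j + i₀) • b + -(i₀ • b) = j • b by rw [add_smul]; abel]
      exact hj)
  have h5 : SR (A b).symm ρ (A (-((D * n * (((fun i => Λ * (N * n) * ((i + k₀) / (N * n) + 1))^[r]
      (j + i₀) + k₀) / (N * n) + 1) + i₀) • b)) x')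
      (A (-((D * n * (((fun i => Λ * (N * n) * ((i + k₀) / (N * n) + 1))^[r]
      (j + i₀) + k₀) / (N * n) + 1) + i₀) • b)) y') := by
    rw [← hA, ← hA, ← neg_add, ← add_smul] at h4
    refine h4.mono ?_
    rw [mul_div_assoc', div_le_iff₀ (by positivity)]
    nlinarith
  refine sr_backward hA ?_ h5
  have h6 := hE (j + i₀)
  have h7 := arith (D := D) (Λ := Λ) (n := n) (N' := N') (r := r) (t₀ := Λ ^ r * i₀ + E + k₀)
    (j := j) (t := (fun i => Λ * (N * n) * ((i + k₀) / (N * n) + 1))^[r] (j + i₀) + k₀) hN' hD hΛ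
    (by
      have e : Λ ^ r * (j + i₀) = Λ ^ r * j + Λ ^ r * i₀ := by ring
      omega)
  rw [← hN] at h7
  omega

end Pool.Agent.NH49.TA
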