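import Pool.Agent.Y330.H.Def

set_option autoImplicit false

open Filter Topology Set unitInterval

namespace Pool.Agent.NH49.TA

open Pool.Agent.Y330.H

/-- The stable holonomies of `f` distort the unstable levels slowly: for every `N ≥ 1` there is a
constant `C` such that, if the stable path `s ↦ R (s, 0)` has (stable) level at most `j`, that is,
all of its points are `𝒰`-close to its initial point after `n` iterates of `f` for all `n ≥ j`, and
the unstable level of the points `R (0, 0)` and `R (0, 1)` is at most `0`, then the unstable level
of their images `R (1, 0)` and `R (1, 1)` under the holonomy along this path is at most `j / N + C`.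

(The level is the logarithm of the size, up to bounded factors; the condition says that the
holonomy along a stable path of length `L` increases the size of an unstable displacement of
bounded size at most to `C_ε L^ε`, for every `ε > 0`.) -/
def SlowHolonomy {M : Type*} [TopologicalSpace M] (f : M ≃ₜ M) (𝒰 : Set (M × M)) : Prop :=
  ∀ N : ℕ, 1 ≤ N → ∃ C : ℕ, ∀ (j : ℕ) (R : C(I × I, M)), Rectangle f R →
    (∀ s, ∀ n ≥ j, (f^[n] (R (0, 0)), f^[n] (R (s, 0))) ∈ 𝒰) →
    Level f 𝒰 0 (R (0, 0)) (R (0, 1)) → Level f 𝒰 (j / N + C) (R (1, 0)) (R (1, 1))

end Pool.Agent.NH49.TA
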