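import Pool.Agent.Y330.J.A7

set_option autoImplicit false
set_option linter.unusedSectionVars false

open Filter Topology Set Metric unitInterval

namespace Pool.Agent.NH49.TA

open Pool.Agent.H789R2.AN Pool.Agent.H789R2.GP Pool.Agent.TH289.L Pool.Agent.TH289.K
open Pool.Agent.TH304.K289 Pool.Agent.Y330.H Pool.Agent.Y330.G Pool.Agent.Y330.J

variable {X : Type*} [MetricSpace X] [CompactSpace X] {g : X ≃ₜ X} {c c₁ : ℝ}

/-- the lift of an unstable path -/
theorem lift_u (T : QS g c₁) {x y : X} {p : Path x y} (hp : LPath g.symm p) :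
    ∃ (hy : WS g.symm x y) (L : Path (Leaf.base g x) (⟨y, x, hy, WS.refl g x⟩ : Leaf g x)),
      ∀ t, (L t).pr T = p t := by
  obtain ⟨v, hv⟩ := hp.sm
  have hw : ∀ t, WS g.symm x (p t) := fun t => Con.toWS hp t
  have hy : WS g.symm x y := by simpa using hw 1
  refine ⟨hy, ⟨⟨fun t => ⟨p t, x, hw t, WS.refl g x⟩, ?_⟩, ?_, ?_⟩, fun t => ?_⟩
  · rw [Metric.continuous_iff']
    intro t ε hε
    filter_upwards [(Metric.continuous_iff'.1 v.continuous) t (ε / 2) (half_pos hε)] with r hr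
    refine lt_of_le_of_lt ((Leaf.dist_le _ _ (half_pos hε).le).2 ⟨?_, ?_⟩) (half_lt_self hε)
    · have := (SM.dist_le _ _ (half_pos hε).le).1 hr.le
      rwa [hv, hv] at this
    · intro k
      rw [dist_self]
      positivity
  · apply Leaf.ext
    · exact p.source
    · rfl
  · apply Leaf.ext
    · exact p.target
    · rfl
  · apply Leaf.pr_eq T
    exact qs_degU T (hw t)

/-- the lift of a stable path -/
theorem lift_s (T : QS g c₁) (hc₁ : 0 < c₁) {x y z : X} (hy : WS g.symm x y) {q : Path y z}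
    (hq : LPath g q) : ∃ (s : X) (hs : WS g x s)
      (L : Path (⟨y, x, hy, WS.refl g x⟩ : Leaf g x) (⟨y, s, hy, hs⟩ : Leaf g x)),
      ∀ t, (L t).pr T = q t := by
  obtain ⟨w, hw⟩ := hq.sm
  have hwq : ∀ t, WS g y (q t) := fun t => Con.toWS hq t
  have hex : ∀ t, ∃ s, T.Q y (q t) x s := fun t => T.ex y (q t) x (hwq t) hy.symm'
  choose s hs using hex
  have hxs : ∀ t, WS g x (s t) := fun t => T.wS _ _ _ _ (hs t)
  have h0 : s 0 = x := by
    have h1 := hs 0
    rw [q.source] at h1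
    exact T.unique _ _ _ _ _ h1 (qs_degU T hy.symm')
  refine ⟨s 1, hxs 1, ⟨⟨fun t => ⟨y, s t, hy, hxs t⟩, ?_⟩, ?_, ?_⟩, fun t => ?_⟩
  · rw [Metric.continuous_iff']
    intro t ε hε
    have hws : WS g.symm (q t) (s t) := T.wU _ _ _ _ (hs t)
    obtain ⟨j, hj⟩ := hws.level12 hc₁
    obtain ⟨η, hη, hc⟩ := T.contS j (ε / 2) (half_pos hε)
    filter_upwards [(Metric.continuous_iff'.1 w.continuous) t η hη] with r hr
    refine lt_of_le_of_lt ((Leaf.dist_le _ _ (half_pos hε).le).2 ⟨?_, ?_⟩) (half_lt_self hε)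
    · intro k
      rw [dist_self]
      positivity
    · have h2 := (SM.dist_le _ _ hη.le).1 hr.le
      rw [hw, hw] at h2
      have h3 : T.Q (q t) (q r) (s t) (s r) :=
        T.compS _ _ _ _ _ _ (T.flipS _ _ _ _ (hs t)) (hs r)
      exact (hc _ _ _ _ h3 h2.symm' hj).symm'
  · apply Leaf.ext
    · rfl
    · exact h0
  · rfl
  · apply Leaf.pr_eq T
    exact T.flipU _ _ _ _ (hs t)

/-- uniqueness of the normal form of a class -/
theorem nf_unique (hg : LP g c) (T : QS g c₁) (hc₁ : 0 < c₁) {x y y' z : X} {p : Path x y}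
    {q : Path y z} {p' : Path x y'} {q' : Path y' z} (hp : LPath g.symm p) (hq : LPath g q)
    (hp' : LPath g.symm p') (hq' : LPath g q')
    (h : (cl p).trans (cl q) = (cl p').trans (cl q')) : y = y' := by
  obtain ⟨hy, L₁, e1⟩ := lift_u T hp
  obtain ⟨s, hs, L₂, e2⟩ := lift_s T hc₁ hy hq
  obtain ⟨hy', L₁', e1'⟩ := lift_u T hp'
  obtain ⟨s', hs', L₂', e2'⟩ := lift_s T hc₁ hy' hq'
  have hcov := pr_isCoveringMap hg hc₁ T x
  have hproj : ∀ t, ((L₁.trans L₂) t).pr T = (p.trans q) t := by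
    intro t
    rw [Path.trans_apply, Path.trans_apply]
    split_ifs
    · exact e1 _
    · exact e2 _
  have hproj' : ∀ t, ((L₁'.trans L₂') t).pr T = (p'.trans q') t := by
    intro t
    rw [Path.trans_apply, Path.trans_apply]
    split_ifs
    · exact e1' _
    · exact e2' _
  rw [← cl_trans, ← cl_trans] at h
  have h1 : (p.trans q).Homotopic (p'.trans q') := Path.Homotopic.Quotient.eq.1 h
  have h2 : ((L₁.trans L₂).toContinuousMap).HomotopicRel (L₁'.trans L₂').toContinuousMap {0, 1} := by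
    rw [hcov.homotopicRel_iff_comp ⟨0, by simp, by simp⟩]
    have k1 : ContinuousMap.comp ⟨_, hcov.continuous⟩ (L₁.trans L₂).toContinuousMap =
        (p.trans q).toContinuousMap := by
      ext t
      exact hproj t
    have k2 : ContinuousMap.comp ⟨_, hcov.continuous⟩ (L₁'.trans L₂').toContinuousMap =
        (p'.trans q').toContinuousMap := by
      ext t
      exact hproj' t
    rw [k1, k2]
    exact h1
  obtain ⟨F⟩ := h2
  have h3 := F.fst_eq_snd (x := 1) (by simp)
  have h4 : (L₁.trans L₂) 1 = (L₁'.trans L₂') 1 := h3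
  rw [Path.target, Path.target] at h4
  exact congrArg Leaf.u h4

end Pool.Agent.NH49.TA
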