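import Pool.Agent.NH49.TA.G1

set_option autoImplicit false
set_option linter.unusedSectionVars false

open Filter Topology Set Metric unitInterval

namespace Pool.Agent.NH49.TA

open Pool.Agent.H789R2.AN Pool.Agent.H789R2.GP Pool.Agent.TH289.L Pool.Agent.TH289.K
open Pool.Agent.TH304.K289 Pool.Agent.Y330.H Pool.Agent.Y330.G Pool.Agent.Y330.J

variable {X : Type*} [MetricSpace X] [CompactSpace X] {g : X ≃ₜ X} {c c₁ : ℝ}

/-- slow distortion of the unstable levels by the stable holonomies -/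
def Bk (g : X ≃ₜ X) (c ρ : ℝ) (N C : ℕ) : Prop := ∀ (j : ℕ) (R : I → I → X), Rc g R →
  (∀ s, SR g (c / 2) (g^[j] (R 0 0)) (g^[j] (R s 0))) → Lv g ρ 0 (R 0 0) (R 0 1) →
  Lv g ρ (j / N + C) (R 1 0) (R 1 1)

theorem iter_symm_add (g : X ≃ₜ X) (i j : ℕ) (x : X) : g^[i + j] (g.symm^[i] x) = g^[j] x := by
  rw [add_comm, Function.iterate_add_apply, iterR]

/-- shifted form -/
theorem Bk.shift {ρ : ℝ} {N C : ℕ} (h : Bk g c ρ N C) (i j : ℕ) {R : I → I → X} (hR : Rc g R)
    (hst : ∀ s, SR g (c / 2) (g^[j] (R 0 0)) (g^[j] (R s 0)))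
    (h0 : Lv g ρ i (R 0 0) (R 0 1)) : Lv g ρ ((i + j) / N + C + i) (R 1 0) (R 1 1) := by
  have := h (i + j) _ (hR.iter' i) (fun s => by
    rw [iter_symm_add, iter_symm_add]
    exact hst s) (by rw [Lv.add_iff, zero_add]; exact h0)
  rwa [Lv.add_iff] at this

/-- all sub-rectangles -/
theorem Bk.sub {ρ : ℝ} {N C : ℕ} (h : Bk g c ρ N C) (i j : ℕ) {R : I → I → X} (hR : Rc g R)
    (hst : ∀ s, SR g (c / 2) (g^[j] (R 0 0)) (g^[j] (R s 0)))
    (h0 : ∀ t, Lv g ρ i (R 0 0) (R 0 t)) (s t : I) :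
    Lv g ρ ((i + j) / N + C + i) (R s 0) (R s t) := by
  have hA : Rc g (fun s' t' => R (s * s') (t * t')) :=
    hR.reparam (a := fun s' => s * s') (b := fun t' => t * t') (by fun_prop) (by fun_prop)
  have h5 := h.shift i j hA (fun s' => by
    show SR g (c / 2) (g^[j] (R (s * 0) (t * 0))) (g^[j] (R (s * s') (t * 0)))
    rw [mul_zero, mul_zero]
    exact hst _) (by
    show Lv g ρ i (R (s * 0) (t * 0)) (R (s * 0) (t * 1))
    rw [mul_zero, mul_zero, mul_one]
    exact h0 t)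
  have h6 : Lv g ρ ((i + j) / N + C + i) (R (s * 1) (t * 0)) (R (s * 1) (t * 1)) := h5
  rwa [mul_one, mul_zero, mul_one] at h6

/-- transport of stable displacements -/
theorem transport' (hg : LP g c) {c₂ : ℝ} (hs : Sl g c c₂) {ρ : ℝ} (hρ : ρ ≤ c₂) :
    ∃ q : ℕ, ∀ N C : ℕ, Bk g c ρ N C → ∀ (i j : ℕ) (R : I → I → X), Rc g R →
      (∀ t, Lv g ρ i (R 0 0) (R 0 t)) → (∀ s, SR g (c / 2) (g^[j] (R 0 0)) (g^[j] (R s 0))) →
      ∀ n ≥ q * ((i + j) / N + C + i + j + 1), dist (g^[n] (R 0 1)) (g^[n] (R 1 1)) ≤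
        c * (1 / 2) ^ (n - q * ((i + j) / N + C + i + j + 1)) := by
  classical
  have hc := hg.c_pos
  obtain ⟨η, hη, hcol⟩ := col_close hg hs 0
  obtain ⟨Q, col, hcl⟩ := exists_col X (half_pos hη)
  obtain ⟨k₀, hk₀⟩ := pw (c := c) (half_pos hη)
  refine ⟨Q * (k₀ + 1) + 1, fun N C hb i j R hR hu hst n hn => ?_⟩
  set i' := (i + j) / N + C + i with hi'
  set m := i' + j with hm
  have hR' := hR.iter' i'
  set R' : I → I → X := fun s t => g.symm^[i'] (R s t) with hR'd
  have hl : ∀ s t, Lv g ρ 0 (R' s 0) (R' s t) := by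
    intro s t
    have h5 := hb.sub i j hR hst hu s t
    show Lv g ρ 0 (g.symm^[i'] (R s 0)) (g.symm^[i'] (R s t))
    rw [Lv.add_iff, zero_add]
    exact h5
  have hcc := hcol R' hR' (fun s t => (hl s t).mono' hρ)
  have hbase : ∀ s s', SR g c (g^[m] (R' s 0)) (g^[m] (R' s' 0)) := by
    intro s s'
    have e : ∀ s, g^[m] (R' s 0) = g^[j] (R s 0) := fun s => iter_symm_add g i' j _
    rw [e, e]
    exact (sr_tr (hst s).symm' (hst s')).mono (by linarith)
  have hco : Con g (fun _ : I => R' 0 0) (fun s => R' s 0) :=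
    Con.reidx hR'.cs (fun s : I => (s, (0 : I)))
  have hcr : Continuous fun s : I => R' s 0 :=
    hR'.cont.comp (by fun_prop : Continuous fun s : I => (s, (0 : I)))
  have hkey := chain_col (Y := Fin (m + k₀ + 1) → Fin (Q + 1)) (fun s => g^[n] (R s 1))
    (fun s s' => SR g (η / 2) (R' s 0) (R' s' 0)) (fun s s' h => h.symm')
    (fun s k => col (g^[(k : ℕ)] (R' s 0))) (e := c * (1 / 2) ^ n) (by positivity)
    (fun s s' s'' h1 h2 => by
      have h3 := hcc s s'' ((sr_tr h1 h2).mono (by linarith)) 1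
      have h4 := hg.cS _ _ h3 (n + i')
      have e : ∀ s, g^[n + i'] (R' s 1) = g^[n] (R s 1) := fun s => by
        show g^[n + i'] (g.symm^[i'] (R s 1)) = g^[n] (R s 1)
        rw [Function.iterate_add_apply, iterR]
      rw [e, e] at h4
      exact h4.trans (pw_anti hc (Nat.le_add_right _ _)))
    (fun s s' hss k => by
      rcases Nat.lt_or_ge k (m + k₀ + 1) with hk | hk
      · exact hcl _ _ (congrFun hss ⟨k, hk⟩)
      · have h3 := hg.cS _ _ (hbase s s') (k - m)
        rw [← Function.iterate_add_apply, ← Function.iterate_add_apply,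
          Nat.sub_add_cancel (by omega)] at h3
        exact h3.trans ((pw_anti hc (by omega)).trans hk₀))
    (fun s₀ => hco.cont hcr s₀ (half_pos hη)) _ Finset.univ rfl 0 (fun s _ => Finset.mem_univ _)
  have hcard : (Finset.univ : Finset (Fin (m + k₀ + 1) → Fin (Q + 1))).card =
      (Q + 1) ^ (m + k₀ + 1) := by
    rw [Finset.card_univ, Fintype.card_fun, Fintype.card_fin, Fintype.card_fin]
  rw [hcard] at hkey
  refine hkey.trans (half_pow hc.le ?_ hn)
  exact_mod_cast pow_bound Q k₀ m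

end Pool.Agent.NH49.TA
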