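import Pool.Agent.NH49.TA.G2

set_option autoImplicit false
set_option linter.unusedSectionVars false

open Filter Topology Set Metric unitInterval
open scoped Pointwise

namespace Pool.Agent.NH49.TA

open Pool.Agent.H789R2.AN Pool.Agent.H789R2.GP Pool.Agent.TH289.L Pool.Agent.TH289.K
open Pool.Agent.TH304.K289 Pool.Agent.Y330.H Pool.Agent.Y330.G Pool.Agent.Y330.J

variable {X : Type*} [MetricSpace X] [CompactSpace X] {g : X ≃ₜ X} {c c₁ : ℝ}

/-- data for a generator -/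
def GE (g : X ≃ₜ X) (c ρ : ℝ) (l : ℕ) {x : X} (α : Path.Homotopic.Quotient x x) : Prop :=
  ∃ (y : X) (p : Path x y) (q : Path y x), LPath g.symm p ∧ LPath g q ∧
    α = (cl p).trans (cl q) ∧ Lv g ρ l x y ∧ ∀ s, SR g (c / 2) (g^[l] x) (g^[l] (q s))

/-- data for a product -/
def NE (g : X ≃ₜ X) (c : ℝ) (b B L : ℕ) {x : X} (α : Path.Homotopic.Quotient x x) : Prop :=
  ∃ (y : X) (p : Path x y) (q : Path y x), LPath g.symm p ∧ LPath g q ∧
    α = (cl p).trans (cl q) ∧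
    (∀ n ≥ b, dist (g.symm^[n] x) (g.symm^[n] y) ≤ L * (c * (1 / 2) ^ (n - b))) ∧
    ∀ n ≥ B, dist (g^[n] y) (g^[n] x) ≤ L * (c * (1 / 2) ^ (n - B))

theorem GE.exists (hg : LP g c) (hX : ULC X) (hex : Ex g) {ρ : ℝ} (hρ0 : 0 < ρ) {x : X}
    (α : Path.Homotopic.Quotient x x) : ∃ N : ℕ, ∀ l ≥ N, GE g c ρ l α := by
  have hc := hg.c_pos
  obtain ⟨p₀, rfl⟩ := Path.Homotopic.Quotient.mk_surjective α
  obtain ⟨y, p, q, hp, hq, he⟩ := nf_all hg hX hex p₀
  obtain ⟨n₁, h1⟩ := hp ρ hρ0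
  obtain ⟨n₂, h2⟩ := hq.symm (c / 2) (by positivity)
  refine ⟨n₁ + n₂, fun l hl => ⟨y, p, q, hp, hq, he, fun k => ?_, fun s k => ?_⟩⟩
  · rw [← Function.iterate_add_apply, ← Function.iterate_add_apply]
    have := h1 (k + l) (by omega) 1
    simpa using this
  · rw [← Function.iterate_add_apply, ← Function.iterate_add_apply]
    have := h2 (k + l) (by omega) (σ s)
    simpa using this

theorem GE.finite (hg : LP g c) (hX : ULC X) (hex : Ex g) {ρ : ℝ} (hρ0 : 0 < ρ) {x : X}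
    {S : Set (FundamentalGroup X x)} (hS : S.Finite) :
    ∃ N : ℕ, ∀ α ∈ S, GE g c ρ N (x := x) α := by
  choose N hN using fun α : FundamentalGroup X x => GE.exists (c := c) hg hX hex hρ0 (x := x) α
  obtain ⟨m, hm⟩ := (hS.image N).bddAbove
  exact ⟨m, fun α hα => hN α m (hm (mem_image_of_mem _ hα))⟩

theorem NE.zero (b B : ℕ) (x : X) : NE g c b B 0 (Path.Homotopic.Quotient.refl x) := by
  refine ⟨x, Path.refl x, Path.refl x, LPath.refl _ _, LPath.refl _ _, ?_, ?_, ?_⟩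
  · show Path.Homotopic.Quotient.refl x = (cl (Path.refl x)).trans (cl (Path.refl x))
    rw [show cl (Path.refl x) = Path.Homotopic.Quotient.refl x from
      Path.Homotopic.Quotient.mk_refl x, Path.Homotopic.Quotient.refl_trans]
  · intro n _
    rw [dist_self]
    simp
  · intro n _
    rw [dist_self]
    simp

/-- a good stable path -/
theorem good_s {ρ η : ℝ} (hρ : 0 < ρ) (hη : 0 < η) (hg : LP g c)
    (hpath : ∀ x y : SM g, dist x y ≤ η → ∃ υ : C(I, SM g),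
      υ 0 = x ∧ υ 1 = y ∧ ∀ t, dist x (υ t) ≤ ρ) {x y : X} {j : ℕ}
    (h : SR g η (g^[j] x) (g^[j] y)) :
    ∃ pp : Path x y, LPath g pp ∧ ∀ s, SR g ρ (g^[j] x) (g^[j] (pp s)) := by
  obtain ⟨w', f1, f2, f3⟩ := hpath ⟨g^[j] x⟩ ⟨g^[j] y⟩ ((SM.dist_le _ _ hη.le).2 h)
  obtain ⟨w, hw⟩ := path_push (g := g.symm) j w'
  have hw' : ∀ t, (w t).val = g.symm^[j] (w' t).val := hw
  refine ⟨⟨⟨fun t => (w t).val, SM.val_continuous.comp w.continuous⟩, ?_, ?_⟩, ?_, fun s => ?_⟩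
  · show (w 0).val = x
    rw [hw', f1, iterL]
  · show (w 1).val = y
    rw [hw', f2, iterL]
  · exact lpath_of_sm hg w _ fun t => rfl
  · show SR g ρ (g^[j] x) (g^[j] (w s).val)
    rw [hw', iterR]
    exact (SM.dist_le _ _ hρ.le).1 (f3 s)

/-- a good unstable path -/
theorem good_u {ρ η : ℝ} (hρ : 0 < ρ) (hη : 0 < η) (hg : LP g c)
    (hpath : ∀ x y : SM g.symm, dist x y ≤ η → ∃ υ : C(I, SM g.symm),
      υ 0 = x ∧ υ 1 = y ∧ ∀ t, dist x (υ t) ≤ ρ) {x y : X} {j : ℕ}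
    (h : SR g.symm η (g.symm^[j] x) (g.symm^[j] y)) :
    ∃ pp : Path x y, LPath g.symm pp ∧ ∀ t, Lv g ρ j x (pp t) :=
  good_s hρ hη hg.symm hpath h

/-- right multiplication by a generator: the unstable part -/
theorem step_u (hg : LP g c) (hex : Ex g) {ρ : ℝ} (hρ : ρ ≤ c) {N C : ℕ}
    (hb : Bk g c ρ N C) {η : ℝ} (hη : 0 < η) (hpath : ∀ x y : SM g, dist x y ≤ η →
      ∃ υ : C(I, SM g), υ 0 = x ∧ υ 1 = y ∧ ∀ t, dist x (υ t) ≤ c / 2) {b B l a' L : ℕ}
    (ha : L * (c * (1 / 2) ^ a') ≤ η) (hbb : (l + (B + a')) / N + C + l ≤ b) {x : X}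
    {α β : Path.Homotopic.Quotient x x} (hα : GE g c ρ l α) (hβ : NE g c b B L β) :
    ∃ (y : X) (p : Path x y) (q : Path y x), LPath g.symm p ∧ LPath g q ∧
      β.trans α = (cl p).trans (cl q) ∧
      ∀ n ≥ b, dist (g.symm^[n] x) (g.symm^[n] y) ≤ (L + 1 : ℕ) * (c * (1 / 2) ^ (n - b)) := by
  have hc := hg.c_pos
  obtain ⟨y₁, p₁, q₁, hp₁, hq₁, rfl, hu₁, hs₁⟩ := hα
  obtain ⟨y, p, r, hp, hr, rfl, hu, hs⟩ := hβ
  obtain ⟨R, hR, hR0, hR1⟩ := hex x y y₁ r.symm p₁ hr.symm hp₁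
  obtain ⟨e, he, he'⟩ := Rc.right (y := R 1 1) hR (x := y) (by rw [hR0]; simp) rfl
  obtain ⟨t, ht, ht'⟩ := Rc.top (y := R 1 1) hR (x := y₁) (by rw [hR1]; simp) rfl
  have hsw := swap_cl hR.cont (α := r.symm) (β := e) (β' := p₁) (α' := t) hR0
    (fun t => (he' t).symm) hR1 (fun s => (ht' s).symm)
  rw [Path.symm_symm] at hsw
  refine ⟨R 1 1, p.trans e, t.symm.trans q₁, hp.trans he, ht.symm.trans hq₁, ?_, ?_⟩
  · rw [cl_trans, cl_trans, Path.Homotopic.Quotient.trans_assoc,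
      Path.Homotopic.Quotient.trans_assoc, ← Path.Homotopic.Quotient.trans_assoc (cl r), hsw,
      Path.Homotopic.Quotient.trans_assoc]
  · intro n hn
    have k2 : SR g η (g^[B + a'] x) (g^[B + a'] y) := by
      intro k
      rw [← Function.iterate_add_apply, ← Function.iterate_add_apply, dist_comm]
      refine (hs (k + (B + a')) (by omega)).trans (le_trans ?_ ha)
      exact mul_le_mul_of_nonneg_left (pw_anti hc (by omega)) (Nat.cast_nonneg L)
    obtain ⟨pp, hpp, hpp'⟩ := good_s (by positivity) hη hg hpath k2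
    obtain ⟨V, hV, hV0, hV1⟩ := hex x y y₁ pp p₁ hpp hp₁
    have hx : V 0 0 = x := by rw [hV0]; simp
    have hcor : V 1 1 = R 1 1 := corner (R := fun t s => V s t) (R' := fun t s => R s t)
      hg.symm hV.tr hR.tr (fun s => by
      show V 0 s = R 0 s
      rw [hV1, hR1]) (by
      show V 1 0 = R 1 0
      rw [hV0, hR0]
      simp)
    have k3 := hb.shift l (B + a') hV (fun s => by
        rw [hx, hV0]
        exact hpp' s) (by
        rw [hx, hV1, p₁.target]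
        exact hu₁)
    rw [hcor, hV0, pp.target] at k3
    have k4 : SR g.symm c (g.symm^[b] y) (g.symm^[b] (R 1 1)) := SR.mono (k3.mono hbb) hρ
    have k5 := hg.cU _ _ k4 (n - b)
    rw [← Function.iterate_add_apply, ← Function.iterate_add_apply, Nat.sub_add_cancel hn] at k5
    have k6 := hu n hn
    have := dist_triangle (g.symm^[n] x) (g.symm^[n] y) (g.symm^[n] (R 1 1))
    push_cast
    linarith

/-- left multiplication by a generator: the stable part -/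
theorem step_s (hg : LP g c) (hex : Ex g) {ρ : ℝ} (hρ0 : 0 < ρ) {q N C : ℕ}
    (hq : ∀ (i j : ℕ) (R : I → I → X), Rc g R →
      (∀ t, Lv g ρ i (R 0 0) (R 0 t)) → (∀ s, SR g (c / 2) (g^[j] (R 0 0)) (g^[j] (R s 0))) →
      ∀ n ≥ q * ((i + j) / N + C + i + j + 1), dist (g^[n] (R 0 1)) (g^[n] (R 1 1)) ≤
        c * (1 / 2) ^ (n - q * ((i + j) / N + C + i + j + 1)))
    {η : ℝ} (hη : 0 < η) (hpath : ∀ x y : SM g.symm, dist x y ≤ η → ∃ υ : C(I, SM g.symm),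
      υ 0 = x ∧ υ 1 = y ∧ ∀ t, dist x (υ t) ≤ ρ) {b B l a' L : ℕ}
    (ha : L * (c * (1 / 2) ^ a') ≤ η)
    (hB : q * ((b + a' + l) / N + C + (b + a') + l + 1) ≤ B) {x : X}
    {α β : Path.Homotopic.Quotient x x} (hα : GE g c ρ l α) (hβ : NE g c b B L β) :
    ∃ (y : X) (p : Path x y) (q : Path y x), LPath g.symm p ∧ LPath g q ∧
      α.trans β = (cl p).trans (cl q) ∧
      ∀ n ≥ B, dist (g^[n] y) (g^[n] x) ≤ (L + 1 : ℕ) * (c * (1 / 2) ^ (n - B)) := by
  have hc := hg.c_pos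
  obtain ⟨y₁, p₁, q₁, hp₁, hq₁, rfl, hu₁, hs₁⟩ := hα
  obtain ⟨y₂, p₂, q₂, hp₂, hq₂, rfl, hu₂, hs₂⟩ := hβ
  obtain ⟨R, hR, hR0, hR1⟩ := hex x y₁ y₂ q₁.symm p₂ hq₁.symm hp₂
  obtain ⟨r, hr, hr'⟩ := Rc.right (y := R 1 1) hR (x := y₁) (by rw [hR0]; simp) rfl
  obtain ⟨t, ht, ht'⟩ := Rc.top (y := R 1 1) hR (x := y₂) (by rw [hR1]; simp) rfl
  have hsw := swap_cl hR.cont (α := q₁.symm) (β := r) (β' := p₂) (α' := t) hR0
    (fun t => (hr' t).symm) hR1 (fun s => (ht' s).symm)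
  rw [Path.symm_symm] at hsw
  refine ⟨R 1 1, p₁.trans r, t.symm.trans q₂, hp₁.trans hr, ht.symm.trans hq₂, ?_, ?_⟩
  · rw [cl_trans, cl_trans, Path.Homotopic.Quotient.trans_assoc,
      Path.Homotopic.Quotient.trans_assoc, ← Path.Homotopic.Quotient.trans_assoc (cl q₁), hsw,
      Path.Homotopic.Quotient.trans_assoc]
  · intro n hn
    have k2 : SR g.symm η (g.symm^[b + a'] x) (g.symm^[b + a'] y₂) := by
      intro k
      rw [← Function.iterate_add_apply, ← Function.iterate_add_apply]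
      refine (hu₂ (k + (b + a')) (by omega)).trans (le_trans ?_ ha)
      exact mul_le_mul_of_nonneg_left (pw_anti hc (by omega)) (Nat.cast_nonneg L)
    obtain ⟨pp, hpp, hpp'⟩ := good_u hρ0 hη hg hpath k2
    obtain ⟨V, hV, hV0, hV1⟩ := hex x y₁ y₂ q₁.symm pp hq₁.symm hpp
    have hx : V 0 0 = x := by rw [hV0]; simp
    have hcor : V 1 1 = R 1 1 := corner hg hV hR (fun s => by rw [hV0, hR0])
      (by rw [hV1, hR1]; simp)
    have k3 := hq (b + a') l V hV (fun t => by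
        rw [hx, hV1]
        exact hpp' t)
      (fun s => by
        rw [hx, hV0]
        exact hs₁ (σ s)) n (hB.trans hn)
    rw [hcor, hV1, pp.target] at k3
    have k4 : c * (1 / 2 : ℝ) ^ (n - q * ((b + a' + l) / N + C + (b + a') + l + 1)) ≤
        c * (1 / 2) ^ (n - B) := pw_anti hc (by omega)
    have k5 := hs₂ n hn
    have := dist_triangle_left (g^[n] (R 1 1)) (g^[n] x) (g^[n] y₂)
    push_cast
    linarith

/-- the products -/
theorem ne_pow (hg : LP g c) (T : QS g c₁) (hc₁ : 0 < c₁) (hex : Ex g) {ρ : ℝ} (hρ0 : 0 < ρ)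
    (hρ : ρ ≤ c) {q N C : ℕ} (hb : Bk g c ρ N C)
    (hq : ∀ (i j : ℕ) (R : I → I → X), Rc g R →
      (∀ t, Lv g ρ i (R 0 0) (R 0 t)) → (∀ s, SR g (c / 2) (g^[j] (R 0 0)) (g^[j] (R s 0))) →
      ∀ n ≥ q * ((i + j) / N + C + i + j + 1), dist (g^[n] (R 0 1)) (g^[n] (R 1 1)) ≤
        c * (1 / 2) ^ (n - q * ((i + j) / N + C + i + j + 1)))
    {η : ℝ} (hη : 0 < η) (hpath : ∀ x y : SM g.symm, dist x y ≤ η → ∃ υ : C(I, SM g.symm),
      υ 0 = x ∧ υ 1 = y ∧ ∀ t, dist x (υ t) ≤ ρ)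
    (hpath' : ∀ x y : SM g, dist x y ≤ η → ∃ υ : C(I, SM g),
      υ 0 = x ∧ υ 1 = y ∧ ∀ t, dist x (υ t) ≤ c / 2) {b B l a' L : ℕ}
    (ha : L * (c * (1 / 2) ^ a') ≤ η) (hbb : (l + (B + a')) / N + C + l ≤ b)
    (hB : q * ((b + a' + l) / N + C + (b + a') + l + 1) ≤ B) {x : X}
    {S : Set (FundamentalGroup X x)} (hS : ∀ α ∈ S, GE g c ρ l (x := x) α) :
    ∀ n ≤ L, ∀ α ∈ S ^ n, NE g c b B n (x := x) α := by
  have hc := hg.c_pos
  intro n
  induction n with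
  | zero =>
    intro _ α hα
    rw [pow_zero, Set.mem_one] at hα
    rw [hα, FundamentalGroup.one_def]
    exact NE.zero b B x
  | succ n ih =>
    intro hn α hα
    have ha' : (n : ℝ) * (c * (1 / 2) ^ a') ≤ η := by
      refine le_trans ?_ ha
      exact mul_le_mul_of_nonneg_right (by exact_mod_cast (show n ≤ L by omega)) (by positivity)
    have h1 := hα
    rw [pow_succ] at h1
    rw [pow_succ'] at hα
    obtain ⟨β, hβ, γ, hγ, e1⟩ := Set.mem_mul.1 h1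
    obtain ⟨γ', hγ', β', hβ', e2⟩ := Set.mem_mul.1 hα
    have e1' : α = (Path.Homotopic.Quotient.trans γ β : Path.Homotopic.Quotient x x) := by
      rw [← e1, FundamentalGroup.mul_def]
    have e2' : α = (Path.Homotopic.Quotient.trans β' γ' : Path.Homotopic.Quotient x x) := by
      rw [← e2, FundamentalGroup.mul_def]
    obtain ⟨y, p, r, hp, hr, h2, h3⟩ := step_s hg hex hρ0 hq hη hpath ha' hB (hS γ hγ)
      (ih (by omega) β hβ)
    obtain ⟨y', p', r', hp', hr', h2', h3'⟩ := step_u hg hex hρ hb hη hpath' ha' hbb (hS γ' hγ')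
      (ih (by omega) β' hβ')
    have hy : y' = y := by
      refine nf_unique hg T hc₁ hp' hr' hp hr ?_
      rw [← h2', ← h2, ← e1', ← e2']
    subst hy
    exact ⟨y', p', r', hp', hr', e2'.trans h2', h3', h3⟩

/-- the numbers -/
theorem numbers {q C l a' : ℕ} : ∃ b B : ℕ, b = 8 * (a' + l + C + 1) ∧
    B = q * (2 * (b + a' + l) + C + 1) ∧ (l + (B + a')) / (4 * (q + 1)) + C + l ≤ b ∧
    q * ((b + a' + l) / (4 * (q + 1)) + C + (b + a') + l + 1) ≤ B := by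
  refine ⟨_, _, rfl, rfl, ?_, ?_⟩
  · set s := a' + l + C + 1 with hs
    have h1 : (l + (q * (2 * (8 * s + a' + l) + C + 1) + a')) / (4 * (q + 1)) ≤ 5 * s := by
      apply Nat.div_le_of_le_mul
      have h2 : 2 * (8 * s + a' + l) + C + 1 ≤ 19 * s := by omega
      have h3 := Nat.mul_le_mul_left q h2
      nlinarith
    omega
  · apply Nat.mul_le_mul_left
    have h1 : (8 * (a' + l + C + 1) + a' + l) / (4 * (q + 1)) ≤ 8 * (a' + l + C + 1) + a' + l :=
      Nat.div_le_self _ _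
    omega

end Pool.Agent.NH49.TA
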