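import Pool.Agent.NH49.TA.G3

set_option autoImplicit false
set_option linter.unusedSectionVars false

open Filter Topology Set Metric unitInterval
open scoped Pointwise

namespace Pool.Agent.NH49.TA

open Pool.Agent.H789R2.AN Pool.Agent.H789R2.GP Pool.Agent.TH289.L Pool.Agent.TH289.K
open Pool.Agent.TH304.K289 Pool.Agent.Y330.H Pool.Agent.Y330.G Pool.Agent.Y330.J

variable {X : Type*} [MetricSpace X] [CompactSpace X] {g : X ≃ₜ X} {c c₁ : ℝ}

theorem ij_bound {q s₀ k : ℕ} : 8 * (k + s₀) + k + (q * (19 * (k + s₀)) + k) + 1 =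
    ((19 * q + 8) * s₀ + 1) + k * (19 * q + 10) := by ring

/-- polynomial growth for slowly distorting holonomies, the abstract form -/
theorem growth' (hg : LP g c) (hX : ULC X) (T : QS g c₁) (hc₁ : 0 < c₁) {c₂ : ℝ} (hc₂ : c₂ ≤ c)
    (hs : Sl g c c₂) (hex : Ex g) {ρ : ℝ} (hρ0 : 0 < ρ) (hρ : ρ ≤ c₂)
    (hb : ∀ N ≥ 1, ∃ C, Bk g c ρ N C) : PG X := by
  classical
  have hc := hg.c_pos
  obtain ⟨q, hq⟩ := transport' hg hs hρ
  obtain ⟨C, hC⟩ := hb (4 * (q + 1)) (by omega)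
  obtain ⟨η₁, hη₁, hpath₁⟩ := leaf_path hg.symm hX ρ hρ0
  obtain ⟨η₂, hη₂, hpath₂⟩ := leaf_path hg hX (c / 2) (by positivity)
  set η := min η₁ η₂ with hηd
  have hη : 0 < η := lt_min hη₁ hη₂
  have hpath : ∀ x y : SM g.symm, dist x y ≤ η → ∃ υ : C(I, SM g.symm),
      υ 0 = x ∧ υ 1 = y ∧ ∀ t, dist x (υ t) ≤ ρ := fun x y h =>
    hpath₁ x y (h.trans (min_le_left _ _))
  have hpath' : ∀ x y : SM g, dist x y ≤ η → ∃ υ : C(I, SM g),
      υ 0 = x ∧ υ 1 = y ∧ ∀ t, dist x (υ t) ≤ c / 2 := fun x y h =>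
    hpath₂ x y (h.trans (min_le_right _ _))
  obtain ⟨Q, col, hcol⟩ := exists_col X hc
  obtain ⟨a₁, ha₁⟩ := pw (c := c) hη
  refine ⟨Q * (19 * q + 10), fun x S hS => ?_⟩
  obtain ⟨l, hl⟩ := GE.finite hg hX hex hρ0 hS
  set s₀ := a₁ + l + C + 1 with hs₀
  refine ⟨(2 ^ Q) ^ ((19 * q + 8) * s₀ + 1 + 2 * (19 * q + 10)), fun n => ?_⟩
  set k := Nat.log 2 (n + 1) + 2 with hk
  have hk1 : 2 * n ≤ 2 ^ k := by
    have := Nat.lt_pow_succ_log_self (b := 2) (by norm_num) (n + 1)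
    rw [hk, pow_succ]
    omega
  have hk2 : 2 ^ k ≤ 4 * (n + 1) := by
    have := Nat.pow_log_le_self 2 (x := n + 1) (by omega)
    rw [hk, pow_add]
    omega
  obtain ⟨b, B, hbd, hBd, hb1, hB1⟩ := numbers (q := q) (C := C) (l := l) (a' := a₁ + k)
  have hnd := ne_pow hg T hc₁ hex hρ0 (hρ.trans hc₂) hC (hq _ _ hC) hη hpath hpath' (b := b)
    (B := B) (l := l) (a' := a₁ + k) (L := n) (by
      have h1 := half_pow' hk1 hc.le a₁
      have h2 : (0:ℝ) ≤ c * (1 / 2) ^ a₁ := by positivity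
      linarith) hb1 hB1 hl n le_rfl
  set i := b + k with hi
  set j := B + k with hj
  have hne : Nonempty X := ⟨x⟩
  have hnd' : ∀ α ∈ S ^ n, ∃ y : X, ∃ (p : Path x y) (r : Path y x), LPath g.symm p ∧
      LPath g r ∧ α = (cl p).trans (cl r) ∧
      (∀ m ≥ b, dist (g.symm^[m] x) (g.symm^[m] y) ≤ n * (c * (1 / 2) ^ (m - b))) ∧
      ∀ m ≥ B, dist (g^[m] y) (g^[m] x) ≤ n * (c * (1 / 2) ^ (m - B)) := hnd
  choose! y hy using hnd'
  have hU : ∀ α ∈ S ^ n, ∀ m ≥ i, dist (g.symm^[m] x) (g.symm^[m] (y α)) ≤ c / 2 := by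
    intro α hα m hm
    obtain ⟨p, r, hp, -, -, hu, -⟩ := hy α hα
    have h1 := hu m (by omega)
    have h2 := half_pow' hk1 hc.le (m - i)
    have h3 : c / 2 * (1 / 2 : ℝ) ^ (m - i) ≤ c / 2 :=
      mul_le_of_le_one_right (by positivity) (pow_le_one₀ (by norm_num) (by norm_num))
    rw [show m - i + k = m - b by omega] at h2
    linarith
  have hV : ∀ α ∈ S ^ n, ∀ m ≥ j, dist (g^[m] (y α)) (g^[m] x) ≤ c / 2 := by
    intro α hα m hm
    obtain ⟨p, r, -, -, -, -, hv⟩ := hy α hα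
    have h1 := hv m (by omega)
    have h2 := half_pow' hk1 hc.le (m - j)
    have h3 : c / 2 * (1 / 2 : ℝ) ^ (m - j) ≤ c / 2 :=
      mul_le_of_le_one_right (by positivity) (pow_le_one₀ (by norm_num) (by norm_num))
    rw [show m - j + k = m - B by omega] at h2
    linarith
  have hinj : Set.InjOn (fun α => fun m : Fin (i + j + 1) =>
      col (g^[(m : ℕ)] (g.symm^[i] (y α)))) (S ^ n) := by
    intro α hα β hβ hab
    have h1 : y α = y β := col_eq hg hcol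
      (fun m hm => by
        have := dist_triangle_left (g.symm^[m] (y α)) (g.symm^[m] (y β)) (g.symm^[m] x)
        linarith [hU α hα m hm, hU β hβ m hm])
      (fun m hm => by
        have := dist_triangle_right (g^[m] (y α)) (g^[m] (y β)) (g^[m] x)
        linarith [hV α hα m hm, hV β hβ m hm])
      (fun m hm => congrFun hab ⟨m, by omega⟩)
    obtain ⟨p, r, p1, r1, e1, -, -⟩ := hy α hα
    obtain ⟨p', r', p2, r2, e2, -, -⟩ := hy β hβ
    rw [e1, e2]
    clear e1 e2 hab hα hβ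
    generalize y β = yb at *
    subst h1
    rw [cl_eq (hom_unique hX p1 p2), cl_eq (hom_unique hX r1 r2)]
  have hcard : (S ^ n).ncard ≤ (Q + 1) ^ (i + j + 1) := by
    have h1 := Set.ncard_le_ncard_of_injOn _ (t := (Set.univ : Set (Fin (i + j + 1) → Fin (Q + 1))))
      (fun α _ => mem_univ _) hinj
    rwa [Set.ncard_univ, Nat.card_eq_fintype_card, Fintype.card_fun, Fintype.card_fin,
      Fintype.card_fin] at h1
  refine hcard.trans ?_
  have hij : i + j + 1 ≤ ((19 * q + 8) * s₀ + 1) + k * (19 * q + 10) := by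
    rw [← ij_bound, hi, hj, hbd, hBd, hbd]
    have h1 : 2 * (8 * (a₁ + k + l + C + 1) + (a₁ + k) + l) + C + 1 ≤ 19 * (k + s₀) := by omega
    have h2 := Nat.mul_le_mul_left q h1
    omega
  have hQ2 : (Q + 1) ^ (i + j + 1) ≤ (2 ^ Q) ^ (((19 * q + 8) * s₀ + 1) + k * (19 * q + 10)) :=
    (Nat.pow_le_pow_left Nat.lt_two_pow_self _).trans
      (Nat.pow_le_pow_right (by positivity) hij)
  refine hQ2.trans ?_
  have h8 : (2 ^ Q) ^ (k * (19 * q + 10)) ≤
      (2 ^ Q) ^ (2 * (19 * q + 10)) * (n + 1) ^ (Q * (19 * q + 10)) := by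
    calc (2 ^ Q) ^ (k * (19 * q + 10)) = (2 ^ k) ^ (Q * (19 * q + 10)) := by
          rw [← pow_mul, ← pow_mul]
          congr 1
          ring
      _ ≤ (4 * (n + 1)) ^ (Q * (19 * q + 10)) := Nat.pow_le_pow_left hk2 _
      _ = (2 ^ Q) ^ (2 * (19 * q + 10)) * (n + 1) ^ (Q * (19 * q + 10)) := by
          rw [mul_pow]
          congr 1
          rw [show (4 : ℕ) = 2 ^ 2 by norm_num, ← pow_mul, ← pow_mul]
          congr 1
          ring
  calc (2 ^ Q) ^ (((19 * q + 8) * s₀ + 1) + k * (19 * q + 10))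
      = (2 ^ Q) ^ ((19 * q + 8) * s₀ + 1) * (2 ^ Q) ^ (k * (19 * q + 10)) := by
        rw [pow_add]
    _ ≤ (2 ^ Q) ^ ((19 * q + 8) * s₀ + 1) *
        ((2 ^ Q) ^ (2 * (19 * q + 10)) * (n + 1) ^ (Q * (19 * q + 10))) :=
        Nat.mul_le_mul_left _ h8
    _ = _ := by
        rw [← mul_assoc, ← pow_add]

end Pool.Agent.NH49.TA
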