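import Pool.Agent.NH49.TA.G4
import Pool.Agent.NH49.TA.Def
import Pool.Agent.TH289.K.A6

set_option autoImplicit false
set_option linter.unusedSectionVars false

open Filter Topology Set Metric unitInterval
open scoped Manifold ContDiff Pointwise

namespace Pool.Agent.NH49.TA

open Pool.Agent.H721R2 Pool.Agent.H789R2.AN Pool.Agent.H789R2.GP Pool.Agent.TH304.K289
open Pool.Agent.TH289.L Pool.Agent.TH289 Pool.Agent.TH289.K
open Pool.Agent.Y330.G Pool.Agent.Y330.H Pool.Agent.Y330.J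
open Pool.Agent.W740.TU (anosov_symm transitive_symm)

section abs

variable {X : Type*} [MetricSpace X] [CompactSpace X] {g : X ≃ₜ X} {c : ℝ}

/-- rectangles with bounded unstable sides extend along all stable paths -/
theorem extend' (hg : LP g c) {c₁ : ℝ} (hc₁ : 0 < c₁) (hs : Sl g c c₁) {K : ℕ}
    (v : C(I, SM g.symm)) (τ : C(I, SM g)) (h0 : (τ 0).val = (v 0).val)
    (hv : ∀ (r : I) (T : I → I → X), Rc g T → (∀ s, T s 0 = (τ (r * s)).val) →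
      (∀ t, T 0 t = (v t).val) →
      ∀ t, SR g.symm c₁ (g.symm^[K] (T 1 0)) (g.symm^[K] (T 1 t))) :
    ∃ T : I → I → X, Rc g T ∧ (∀ s, T s 0 = (τ s).val) ∧ ∀ t, T 0 t = (v t).val := by
  obtain ⟨η, hη, hsl⟩ := hs 1 one_pos K
  have hu : UniformContinuous τ := CompactSpace.uniformContinuous_of_continuous τ.continuous
  rw [Metric.uniformContinuous_iff] at hu
  obtain ⟨δ, hδ, hτδ⟩ := hu η hη
  have hall : ∀ r : I, ∃ Γ : C(I, Pr g), (Γ 0).y = (τ r).val ∧ ∀ t, (Γ t).x = (v t).val := by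
    refine interval_induct (S := fun r => ∃ Γ : C(I, Pr g), (Γ 0).y = (τ r).val ∧
      ∀ t, (Γ t).x = (v t).val) hδ ?_ ?_
    · obtain ⟨Γ, a1, a2⟩ := strip_const (g := g) v
      exact ⟨Γ, by rw [a2, h0], a1⟩
    · intro r hr r' hrr
      let τ' : C(I, SM g) := ⟨fun s => τ (r * s), by fun_prop⟩
      obtain ⟨T, a1, a2, a3⟩ := rc_of_strips hg hc₁ hs τ' v
        (by
          show (τ (r * 0)).val = _
          rw [mul_zero, h0])
        (fun s => hr (r * s) unitInterval.mul_le_left)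
      obtain ⟨v₃, hv₃⟩ := a1.pathU 1
      have e1 : T 1 0 = (τ r).val := by
        rw [a2]
        show (τ (r * 1)).val = _
        rw [mul_one]
      obtain ⟨Γ₃, c1, c2, -, -⟩ := hsl v₃ (τ r').val
        (by
          rw [hv₃, e1]
          exact (SM.dist_le _ _ hη.le).mp (hτδ hrr).le)
        (fun t => by
          rw [hv₃, hv₃]
          exact hv r T a1 a2 a3 t)
      obtain ⟨Γ₄, d1, d2⟩ := a1.strip 0 1
      obtain ⟨Γ₅, f1, f2⟩ := strip_comp Γ₄ Γ₃ (fun s => by rw [c2, d2, hv₃])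
      exact ⟨Γ₅, by rw [f2, c1], fun s => by rw [f1, d1, a3]⟩
  exact rc_of_strips hg hc₁ hs τ v h0 hall

/-- slow distortion implies that all unstable paths lift along all stable displacements -/
theorem lf_of_bk (hg : LP g c) (hX : ULC X) {c₁ : ℝ} (hc₁ : 0 < c₁) (hs : Sl g c c₁) {ρ : ℝ}
    (hρ0 : 0 < ρ) (hρ : ρ ≤ c₁) {N C : ℕ} (hb : Bk g c ρ N C) : ∀ a s, WS g a s → Lf g a s := by
  intro a s has υ hυ
  have hc := hg.c_pos
  obtain ⟨τ, hτ0, hτ1⟩ := leaf_conn hg hX a s has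
  obtain ⟨i, hi⟩ := path_level hg.symm υ hρ0
  obtain ⟨j, hj⟩ := path_level hg τ (show 0 < c / 2 by positivity)
  obtain ⟨T, h1, h2, h3⟩ := extend' hg hc₁ hs (K := (i + j) / N + C + i) υ τ (by rw [hτ0, hυ])
    (fun r T hT k1 k2 t => by
      have h4 := hb.sub i j hT (fun s => by
        rw [k1, k1, mul_zero]
        exact hj _) (fun t => by
        show SR g.symm ρ (g.symm^[i] (T 0 0)) (g.symm^[i] (T 0 t))
        rw [k2, k2]
        exact hi t) 1 t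
      exact SR.mono h4 hρ)
  obtain ⟨Γ, d1, d2⟩ := h1.strip 0 1
  refine ⟨(Γ 1).y, Γ, ?_, rfl, fun t => ?_⟩
  · rw [d2, h2, hτ1]
  · rw [d1, h3]

/-- all consequences -/
theorem all_of_bk (hg : LP g c) (hX : ULC X) {c₁ : ℝ} (hc₁ : 0 < c₁) (hc₁c : c₁ ≤ c)
    (hs : Sl g c c₁) {ρ : ℝ} (hρ0 : 0 < ρ) (hρ : ρ ≤ c₁) (hb : ∀ N ≥ 1, ∃ C, Bk g c ρ N C) :
    (∀ a s, WS g a s → Lf g a s) ∧ PG X := by
  obtain ⟨C, hC⟩ := hb 1 le_rfl
  have hlf := lf_of_bk hg hX hc₁ hs hρ0 hρ hC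
  obtain ⟨c', hc', T, -⟩ := exists_QS' hg hX hlf
  exact ⟨hlf, growth' hg hX T hc' hc₁c hs (ex_of_lf hg hc₁ hs hlf) hρ0 hρ hb⟩

theorem bk_of_slow {f : X ≃ₜ X} {n₀ : ℕ} (hn₀ : 1 ≤ n₀) {c : ℝ} (hg : LP (iterHomeo f n₀) c)
    {𝒰 : Set (X × X)} (h𝒰 : 𝒰 ∈ 𝓝ˢ (diagonal X)) (hc : ∀ p ∈ 𝒰, dist p.1 p.2 ≤ c)
    (hS : SlowHolonomy f 𝒰) :
    ∃ r > 0, ∀ ρ > 0, ρ ≤ r → ∀ N ≥ 1, ∃ C, Bk (iterHomeo f n₀) c ρ N C := by
  have hc0 := hg.c_pos
  obtain ⟨r, hr, h1⟩ := level_of_lv f n₀ h𝒰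
  obtain ⟨ε, hε, hε1⟩ := (diag_iff _).1 h𝒰
  obtain ⟨η, hη, hη1⟩ := T1_unif f n₀ hε
  obtain ⟨a₀, ha₀⟩ := pw (c := c) (half_pos hη)
  refine ⟨r, hr, fun ρ hρ hρr N hN => ?_⟩
  obtain ⟨a, ha⟩ := pw (c := c) hρ
  obtain ⟨C, hC⟩ := hS (n₀ * N) (by nlinarith)
  refine ⟨a + (a₀ + 1 + C), fun j R hR hst h0 => ?_⟩
  have h2 := hC (n₀ * (j + a₀)) _ (rectangle_of_rc hn₀ hR) (fun s n hn => hε1 _ _ (by
    have hnn : n = n % n₀ + n₀ * (n / n₀) := (Nat.mod_add_div n n₀).symm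
    have hle : j + a₀ ≤ n / n₀ := (Nat.le_div_iff_mul_le (by omega)).mpr (by rwa [Nat.mul_comm])
    have h3 := hg.cS _ _ ((hst s).mono (show c / 2 ≤ c by linarith)) (n / n₀ - j)
    rw [← Function.iterate_add_apply, ← Function.iterate_add_apply,
      Nat.sub_add_cancel (by omega), iterHomeo_iter, iterHomeo_iter] at h3
    show dist (f^[n] (R 0 0)) (f^[n] (R s 0)) < ε
    rw [hnn, Function.iterate_add_apply, Function.iterate_add_apply]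
    refine hη1 (n % n₀) (Nat.mod_lt _ (by omega)).le _ _ ?_
    have h4 : c * (1 / 2 : ℝ) ^ (n / n₀ - j) ≤ η / 2 := (pw_anti hc0 (by omega)).trans ha₀
    linarith)) (by
    have := h1 ρ hρr 0 _ _ h0 hn₀
    rwa [Nat.mul_zero] at this)
  have h3 := lv_of_level hn₀ hg hc ha h2
  refine Lv.mono h3 ?_
  have h4 : n₀ * (j + a₀) / (n₀ * N) = (j + a₀) / N := Nat.mul_div_mul_left _ _ (by omega)
  have h5 : (j + a₀) / N ≤ j / N + (a₀ + 1) := by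
    apply Nat.div_le_of_le_mul
    have h6 : j < N * (j / N + 1) := Nat.lt_mul_div_succ j (by omega)
    nlinarith
  omega

theorem lf_triv [Subsingleton X] {g : X ≃ₜ X} : ∀ a s, WS g a s → Lf g a s := lf_trivial

/-- the abstract theorem -/
theorem abs_slow {f : X ≃ₜ X} {n₀ : ℕ} (hn₀ : 1 ≤ n₀) {c : ℝ}
    (hg : LP (iterHomeo f n₀) c) (hX : ULC X) {𝒰 : Set (X × X)} (h𝒰 : 𝒰 ∈ 𝓝ˢ (diagonal X))
    (hc : ∀ p ∈ 𝒰, dist p.1 p.2 ≤ c) (hS : SlowHolonomy f 𝒰) :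
    (∀ a s, WS (iterHomeo f n₀) a s → Lf (iterHomeo f n₀) a s) ∧ PG X := by
  have hc0 := hg.c_pos
  obtain ⟨c₁, hc₁, hs⟩ := exists_sl hg
  obtain ⟨r, hr, h1⟩ := bk_of_slow hn₀ hg h𝒰 hc hS
  set c₂ := min c c₁ with hc₂
  have hc₂0 : 0 < c₂ := lt_min hc0 hc₁
  set ρ := min r c₂ with hρ
  have hρ0 : 0 < ρ := lt_min hr hc₂0
  exact all_of_bk hg hX hc₂0 (min_le_left _ _) (hs.mono (min_le_right _ _)) hρ0 (min_le_right _ _)
    (h1 ρ hρ0 (min_le_left _ _))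

end abs

end Pool.Agent.NH49.TA
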