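import Pool.Agent.NH49.TA.H1

set_option autoImplicit false
set_option linter.unusedSectionVars false

open Filter Topology Set Metric
open scoped Manifold ContDiff Pointwise

namespace Pool.Agent.NH49.TA

open Pool.Agent.H721R2 Pool.Agent.H789R2.AN Pool.Agent.H789R2.GP Pool.Agent.TH304.K289
open Pool.Agent.TH289.L Pool.Agent.TH289 Pool.Agent.TH289.K
open Pool.Agent.Y330.G Pool.Agent.Y330.H Pool.Agent.Y330.J
open Pool.Agent.W740.TU (anosov_symm transitive_symm)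

section manifold

variable {E : Type*} [NormedAddCommGroup E] [NormedSpace ℝ E] [FiniteDimensional ℝ E]
  {M : Type*} [TopologicalSpace M] [T2Space M] [CompactSpace M] [ConnectedSpace M]
  [ChartedSpace E M] [IsManifold 𝓘(ℝ, E) ∞ M]

theorem man_slow (f : Diffeomorph 𝓘(ℝ, E) 𝓘(ℝ, E) M M 1)
    (Es Eu : ∀ x : M, Submodule ℝ (TangentSpace 𝓘(ℝ, E) x)) (hA : IsAnosov f Es Eu) :
    ∃ 𝒰₀ ∈ 𝓝ˢ (diagonal M), ∀ 𝒰 ∈ 𝓝ˢ (diagonal M), 𝒰 ⊆ 𝒰₀ →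
      SlowHolonomy f.toHomeomorph 𝒰 → TopTransitive f ∧ GPS f.toHomeomorph ∧
        (∃ π : E → M, IsCoveringMap π ∧ Function.Surjective π) ∧ PG M := by
  obtain ⟨m, ee, hee, hemb, hinje⟩ :=
    exists_embedding_euclidean_of_compact (I := 𝓘(ℝ, E)) (M := M)
  let _ : MetricSpace M := hemb.isEmbedding.comapMetricSpace ee
  have hiso : ∀ x y : M, dist x y = ‖ee x - ee y‖ := fun x y => dist_eq_norm (ee x) (ee y)
  have he1 : ContMDiff 𝓘(ℝ, E) (𝓡 m) 1 ee := hee.of_le (by simp)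
  obtain ⟨N, ⟨S, hg, -, -, -⟩, hN⟩ :=
    ((exists_sys_ev hiso he1 hinje f Es Eu hA).and (eventually_ge_atTop 1)).exists
  have : ProperSpace E := FiniteDimensional.proper_real E
  obtain ⟨c, hLP⟩ := exists_LP S
  obtain ⟨q, hq, p, hp⟩ := S.exists_periodic
  rw [hg] at hLP hp
  have hX : ULC M := ulc_of_charted (X := M) (E := E)
  refine ⟨{p | dist p.1 p.2 < c}, (diag_iff _).2 ⟨c, hLP.c_pos, fun x y h => h⟩,
    fun 𝒰 h𝒰 hsub hQ => ?_⟩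
  obtain ⟨hlf, hPG⟩ := abs_slow hN hLP hX h𝒰 (fun p hp => (hsub hp : dist p.1 p.2 < c).le) hQ
  obtain ⟨c', hc', ⟨T⟩⟩ := exists_IQS hLP hX hlf
  obtain ⟨π, hπ⟩ : ∃ π : E → M, IsCoveringMap π := exists_covering hLP hc' T.toQS p q hq hp
  exact ⟨trans_of_iqs rfl hLP hc' T, gps_of_iqs hN rfl hLP hc' T, ⟨π, hπ, covering_surj hπ⟩, hPG⟩

/-- the form for both foliations -/
theorem man_slow2 (f : Diffeomorph 𝓘(ℝ, E) 𝓘(ℝ, E) M M 1)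
    (Es Eu : ∀ x : M, Submodule ℝ (TangentSpace 𝓘(ℝ, E) x)) (hA : IsAnosov f Es Eu) :
    ∃ 𝒰₀ ∈ 𝓝ˢ (diagonal M), ∀ 𝒰 ∈ 𝓝ˢ (diagonal M), 𝒰 ⊆ 𝒰₀ →
      (SlowHolonomy f.toHomeomorph 𝒰 ∨ SlowHolonomy f.toHomeomorph.symm 𝒰) →
      TopTransitive f ∧ GPS f.toHomeomorph ∧ (∃ π : E → M, IsCoveringMap π ∧
        Function.Surjective π) ∧ ∃ d : ℕ, ∀ (x : M) (S : Set (FundamentalGroup M x)), S.Finite →
        ∃ C : ℕ, ∀ n : ℕ, (S ^ n).ncard ≤ C * (n + 1) ^ d := by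
  obtain ⟨𝒰₁, h3, h4⟩ := man_slow f Es Eu hA
  obtain ⟨𝒰₂, h5, h6⟩ := man_slow f.symm Eu Es (anosov_symm f Es Eu hA)
  refine ⟨𝒰₁ ∩ 𝒰₂, inter_mem h3 h5, fun 𝒰 h𝒰 hsub hQ => ?_⟩
  rcases hQ with hQ | hQ
  · exact h4 𝒰 h𝒰 (hsub.trans inter_subset_left) hQ
  · obtain ⟨k1, k2, k3, k4⟩ := h6 𝒰 h𝒰 (hsub.trans inter_subset_right) hQ
    exact ⟨transitive_symm f.toHomeomorph k1, k2.symm, k3, k4⟩

end manifold

end Pool.Agent.NH49.TA
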