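import Pool.Agent.NH49.TA.B3
import Pool.Agent.NH49.TA.G4

set_option autoImplicit false
set_option linter.unusedSectionVars false

open Filter Topology Set Metric unitInterval

namespace Pool.Agent.NH49.TA

section arith

theorem fin_bound {ι : Type*} [Finite ι] (f : ι → ℝ) : ∃ D : ℕ, 1 ≤ D ∧ ∀ i, f i < D := by
  obtain ⟨B, hB⟩ := (Set.finite_range f).bddAbove
  obtain ⟨D, hD⟩ := exists_nat_gt B
  refine ⟨D + 1, by omega, fun i => ?_⟩
  have := hB (mem_range_self i)
  push_cast
  linarith

variable {G J : Type*} [AddCommGroup G] (χ : J → G →+ ℝ)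

/-- the nearly singular elements -/
theorem near_wall {b c : G} {k : J} (hbk : 0 < χ k b) (hck : χ k c < 0)
    (hbc : ∀ j ≠ k, 0 < χ j b * χ j c) {D Λ : ℕ} (hD : -χ k c / χ k b < D)
    (hΛ : ∀ j, 2 + (2 * χ k b / (-χ k c) + 1) * |χ j c| / |χ j b| < Λ) {N : ℕ} (hN : 1 ≤ N) :
    ∃ a : G, (χ k a < 0 ∧ ∀ j ≠ k, 0 < χ j b * χ j a) ∧
      (χ k (a - N • b) < 0 ∧ ∀ j ≠ k, 0 < χ j b * χ j (a - N • b)) ∧
      (∀ j, 0 < χ j b * χ j (D • b + a)) ∧ ∀ j, 0 < χ j b * χ j ((Λ * N) • b - a) := by
  set m : ℕ := ⌊(N + 1) * χ k b / (-χ k c)⌋₊ + 1 with hm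
  have hy : 0 < -χ k c := by linarith
  have hq0 : 0 ≤ (N + 1) * χ k b / (-χ k c) := by positivity
  have hm1 : (N + 1) * χ k b / (-χ k c) < m := by
    rw [hm]
    push_cast
    exact Nat.lt_floor_add_one _
  have hm2 : (m : ℝ) ≤ (N + 1) * χ k b / (-χ k c) + 1 := by
    rw [hm]
    push_cast
    have := Nat.floor_le hq0
    linarith
  have hm3 : (N + 1) * χ k b < m * (-χ k c) := by rwa [div_lt_iff₀ hy] at hm1
  have hm4 : (m : ℝ) * (-χ k c) ≤ (N + 1) * χ k b + (-χ k c) := by
    have := mul_le_mul_of_nonneg_right hm2 hy.le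
    rwa [add_mul, div_mul_cancel₀ _ hy.ne', one_mul] at this
  have hN1 : (1 : ℝ) ≤ N := by exact_mod_cast hN
  have hm0 : (0 : ℝ) < m := by
    rw [hm]
    push_cast
    positivity
  have e : ∀ j, χ j ((N + 1) • b + m • c) = (N + 1) * χ j b + m * χ j c := by
    intro j
    rw [map_add, map_nsmul, map_nsmul, nsmul_eq_mul, nsmul_eq_mul]
    push_cast
    ring
  have hsq : ∀ j ≠ k, 0 < χ j b * χ j b := by
    intro j hj
    have h1 : χ j b ≠ 0 := by
      intro h0
      have := hbc j hj
      rw [h0, zero_mul] at this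
      exact lt_irrefl _ this
    exact mul_self_pos.2 h1
  have hD' : -χ k c < D * χ k b := by rwa [div_lt_iff₀ hbk] at hD
  have hmN : (m : ℝ) ≤ N * (2 * χ k b / (-χ k c) + 1) := by
    have h1 : (N + 1) * χ k b / (-χ k c) ≤ N * (2 * χ k b / (-χ k c)) := by
      rw [mul_div_assoc']
      apply div_le_div_of_nonneg_right _ hy.le
      nlinarith
    nlinarith
  refine ⟨(N + 1) • b + m • c, ⟨?_, fun j hj => ?_⟩, ⟨?_, fun j hj => ?_⟩, fun j => ?_,
    fun j => ?_⟩
  · rw [e]
    linarith
  · rw [e]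
    have h1 := hsq j hj
    have h2 := hbc j hj
    have h3 : χ j b * ((N + 1) * χ j b + m * χ j c) =
        (N + 1) * (χ j b * χ j b) + m * (χ j b * χ j c) := by ring
    rw [h3]
    positivity
  · rw [map_sub, e, map_nsmul, nsmul_eq_mul]
    nlinarith
  · rw [map_sub, e, map_nsmul, nsmul_eq_mul]
    have h1 := hsq j hj
    have h2 := hbc j hj
    have h3 : χ j b * ((N + 1) * χ j b + m * χ j c - N * χ j b) =
        (χ j b * χ j b) + m * (χ j b * χ j c) := by ring
    rw [h3]
    positivity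
  · rw [map_add, e, map_nsmul, nsmul_eq_mul]
    by_cases hj : j = k
    · subst hj
      have h3 : 0 < D * χ j b + ((N + 1) * χ j b + m * χ j c) := by linarith
      positivity
    · have h1 := hsq j hj
      have h2 := hbc j hj
      have h3 : χ j b * (D * χ j b + ((N + 1) * χ j b + m * χ j c)) =
          (D + N + 1) * (χ j b * χ j b) + m * (χ j b * χ j c) := by ring
      rw [h3]
      positivity
  · rw [map_sub, e, map_nsmul, nsmul_eq_mul]
    push_cast
    by_cases hj : j = k
    · subst hj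
      have hΛ0 : (0 : ℝ) ≤ Λ := Nat.cast_nonneg _
      have h3 : 0 < Λ * N * χ j b - ((N + 1) * χ j b + m * χ j c) := by
        have : 0 ≤ Λ * N * χ j b := by positivity
        linarith
      positivity
    · have h1 := hsq j hj
      have hbj : 0 < |χ j b| := by
        rw [abs_pos]
        intro h0
        rw [h0, zero_mul] at h1
        exact lt_irrefl _ h1
      have h4 := hΛ j
      have h5 : (2 * χ k b / (-χ k c) + 1) * |χ j c| < (Λ - 2) * |χ j b| := by
        have h6 : (2 * χ k b / (-χ k c) + 1) * |χ j c| / |χ j b| < Λ - 2 := by linarith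
        rwa [div_lt_iff₀ hbj] at h6
      have h7 : (m : ℝ) * |χ j c| < (Λ - 2) * N * |χ j b| := by
        calc (m : ℝ) * |χ j c| ≤ N * (2 * χ k b / (-χ k c) + 1) * |χ j c| :=
              mul_le_mul_of_nonneg_right hmN (abs_nonneg _)
          _ = N * ((2 * χ k b / (-χ k c) + 1) * |χ j c|) := by ring
          _ < N * ((Λ - 2) * |χ j b|) := by
              apply mul_lt_mul_of_pos_left h5
              linarith
          _ = _ := by ring
      have h8 : χ j b * (Λ * N * χ j b - ((N + 1) * χ j b + m * χ j c)) =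
          (Λ * N - N - 1) * (|χ j b| * |χ j b|) - m * (χ j b * χ j c) := by
        rw [abs_mul_abs_self]
        ring
      have h9 : m * (χ j b * χ j c) ≤ m * (|χ j b| * |χ j c|) := by
        apply mul_le_mul_of_nonneg_left _ hm0.le
        rw [← abs_mul]
        exact le_abs_self _
      have h10 : m * (|χ j b| * |χ j c|) < (Λ - 2) * N * |χ j b| * |χ j b| := by
        calc m * (|χ j b| * |χ j c|) = (m * |χ j c|) * |χ j b| := by ring
          _ < ((Λ - 2) * N * |χ j b|) * |χ j b| := mul_lt_mul_of_pos_right h7 hbj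
          _ = _ := by ring
      rw [h8]
      have h11 : (Λ - 2) * N * |χ j b| * |χ j b| ≤ (Λ * N - N - 1) * (|χ j b| * |χ j b|) := by
        have h12 : 0 ≤ |χ j b| * |χ j b| := by positivity
        nlinarith
      linarith

end arith

end Pool.Agent.NH49.TA
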