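import Pool.Agent.NH49.TA.M1
import Pool.Agent.TH289.K.A6

set_option autoImplicit false
set_option linter.unusedSectionVars false

open Filter Topology Set Metric unitInterval
open scoped Manifold ContDiff

namespace Pool.Agent.NH49.TA

open Pool.Agent.H721R2 Pool.Agent.H789R2.AN Pool.Agent.H789R2.GP Pool.Agent.TH304.K289
open Pool.Agent.TH304.K289.J919 (lf_of_gps)
open Pool.Agent.TH289.L Pool.Agent.TH289 Pool.Agent.TH289.K
open Pool.Agent.Y330.G Pool.Agent.Y330.H Pool.Agent.Y330.J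

section bk

variable {X : Type*} [MetricSpace X] [CompactSpace X] {G : Type*} [AddCommGroup G]
  {A : G → X ≃ₜ X}

theorem bk_of_bq (hA : Act A) {b : G} {c ρ : ℝ} (hc : 0 < c) (hρ : ρ ≤ c) {N C : ℕ}
    (h : ∀ (j : ℕ) (x x' y y' : X), QJ (A b) x x' y y' →
      SR (A b) c (A (j • b) x) (A (j • b) x') → SR (A b).symm c x y →
      SR (A b).symm ρ (A (-((j / N + C) • b)) x') (A (-((j / N + C) • b)) y')) :
    Bk (A b) c ρ N C := by
  intro j R hR hst h0
  obtain ⟨Γ, h1, h2⟩ := hR.strip 0 1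
  have h3 : QJ (A b) (R 0 0) (R 1 0) (R 0 1) (R 1 1) :=
    QJ.of_strip Γ (h1 0) (h2 0) (h1 1) (h2 1)
  have h4 := h j _ _ _ _ h3 (by
    have := (hst 1).mono (show c / 2 ≤ c by linarith)
    rwa [hA.iter, hA.iter] at this) (SR.mono h0 hρ)
  unfold Lv
  rw [hA.iter_symm, hA.iter_symm]
  exact h4

end bk

section sys

variable {X F : Type*} [MetricSpace X] [CompactSpace X] [NormedAddCommGroup F] [NormedSpace ℝ F]
  {G J : Type*} [AddCommGroup G] {A : G → X ≃ₜ X} {e : X → F} {Vp Vn : G → X → Submodule ℝ F}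

/-- hyperbolic systems for multiples -/
def HS (A : G → X ≃ₜ X) (e : X → F) (Vp Vn : G → X → Submodule ℝ F) (u : G) (n : ℕ) : Prop :=
  ∃ S : HypSys X F, S.g = A (n • u) ∧ S.e = e ∧ (∀ x, S.Vs x = Vn u x) ∧ ∀ x, S.Vu x = Vp u x

theorem HS.lp {u : G} {n : ℕ} (h : HS A e Vp Vn u n) : ∃ c, LP (A (n • u)) c := by
  obtain ⟨S, h1, -⟩ := h
  rw [← h1]
  exact exists_LP S

theorem HS.nsP (hA : Act A) {u v : G} {n m : ℕ} (hu : HS A e Vp Vn u n) (hv : HS A e Vp Vn v m)
    (hV : ∀ x, Vn u x ≤ Vn v x) : NS A (n • u) (m • v) := by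
  obtain ⟨S, h1, h2, h3, h4⟩ := hu
  obtain ⟨S', h1', h2', h3', h4'⟩ := hv
  apply ns_of_nest hA
  rw [← h1, ← h1']
  refine nest_of_le S.symm S'.symm (fun x => ?_) (fun x => ?_) (fun x => ?_)
  · show S.e x = S'.e x
    rw [h2, h2']
  · show S.g.symm (S'.g.symm x) = S'.g.symm (S.g.symm x)
    rw [h1, h1', hA.symm, hA.symm, hA.symm, hA.symm, hA.comm]
  · show S.Vs x ≤ S'.Vs x
    rw [h3, h3']
    exact hV x

theorem HS.nsN (hA : Act A) {u v : G} {n m : ℕ} (hu : HS A e Vp Vn u n) (hv : HS A e Vp Vn v m)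
    (hV : ∀ x, Vp u x ≤ Vp v x) : NS A (-(n • u)) (-(m • v)) := by
  obtain ⟨S, h1, h2, h3, h4⟩ := hu
  obtain ⟨S', h1', h2', h3', h4'⟩ := hv
  apply ns_of_nest hA
  rw [← hA.symm_eq, ← hA.symm_eq, ← h1, ← h1']
  refine nest_of_le S S' (fun x => ?_) (fun x => ?_) (fun x => ?_)
  · rw [h2, h2']
  · rw [h1, h1', hA.comm]
  · rw [h4, h4']
    exact hV x

theorem iterHomeo_eq (hA : Act A) (u : G) (n : ℕ) : iterHomeo (A u) n = A (n • u) := by
  ext x
  exact hA.iter u n x

end sys

section abs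

variable {X F : Type*} [MetricSpace X] [CompactSpace X] [NormedAddCommGroup F] [NormedSpace ℝ F]
  [FiniteDimensional ℝ F]
  {G J : Type*} [AddCommGroup G] [Finite J] {A : G → X ≃ₜ X} {e : X → F}
  {Vp Vn : G → X → Submodule ℝ F} {χ : J → G →+ ℝ}

/-- the abstract theorem -/
theorem abs_flip {E : Type*} [NormedAddCommGroup E]
    [NormedSpace ℝ E] [ProperSpace E] [ChartedSpace E X] [ConnectedSpace X] (hA : Act A)
    (hVn : ∀ u v : G, (∀ l, χ l u < 0 → χ l v < 0) → ∀ x, Vn u x ≤ Vn v x)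
    (hVp : ∀ u v : G, (∀ l, 0 < χ l u → 0 < χ l v) → ∀ x, Vp u x ≤ Vp v x)
    (hHS : ∀ u : G, (∀ l, χ l u ≠ 0) → ∀ᶠ n in atTop, HS A e Vp Vn u n) (b : G)
    (hb : ∀ l, χ l b ≠ 0) (c : {k // 0 < χ k b} → G) (hc1 : ∀ k, χ k.1 (c k) < 0)
    (hc2 : ∀ k, ∀ j ≠ k.1, 0 < χ j b * χ j (c k))
    (hinf : ∀ x, Vp b x ⊓ ⨅ k, Vp (c k) x = ⊥) :
    TopTransitive (A b) ∧ GPS (A b) ∧ (∃ π : E → X, IsCoveringMap π) ∧ PG X := by
  classical
  have := Fintype.ofFinite {k // 0 < χ k b}
  have hX : ULC X := ulc_of_charted (X := X) (E := E)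
  have hne0 : ∀ {u : G} {k : J}, (∀ j ≠ k, 0 < χ j b * χ j u) → χ k u ≠ 0 → ∀ l, χ l u ≠ 0 := by
    intro u k h1 h2 l
    by_cases hl : l = k
    · rwa [hl]
    · intro h0
      have := h1 l hl
      rw [h0, mul_zero] at this
      exact lt_irrefl _ this
  have hcreg : ∀ k, ∀ l, χ l (c k) ≠ 0 := fun k => hne0 (hc2 k) (hc1 k).ne
  -- a common power
  obtain ⟨n₀, ⟨hSb, hSc⟩, hn₀⟩ := (((hHS b hb).and (Filter.eventually_all.2
    fun k => hHS (c k) (hcreg k))).and (eventually_ge_atTop 1)).exists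
  obtain ⟨Sb, hb1, hb2, hb3, hb4⟩ := hSb
  have hSb : HS A e Vp Vn b n₀ := ⟨Sb, hb1, hb2, hb3, hb4⟩
  choose Sc hcc1 hcc2 hcc3 hcc4 using hSc
  have hSc : ∀ k, HS A e Vp Vn (c k) n₀ := fun k => ⟨Sc k, hcc1 k, hcc2 k, hcc3 k, hcc4 k⟩
  have hbc_n : ∀ k, ∀ l, χ l b < 0 → χ l (c k) < 0 := by
    intro k l hl
    have hlk : l ≠ k.1 := by
      rintro rfl
      exact lt_asymm k.2 hl
    have := hc2 k l hlk
    nlinarith
  have hbc_p : ∀ k, ∀ l, 0 < χ l (c k) → 0 < χ l b := by
    intro k l hl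
    have hlk : l ≠ k.1 := by
      rintro rfl
      exact lt_asymm (hc1 k) hl
    have := hc2 k l hlk
    nlinarith
  -- the family of inverse systems
  let Sy : Option {k // 0 < χ k b} → HypSys X F := fun o => o.elim Sb.symm fun k => (Sc k).symm
  have hSye : ∀ i x, (Sy i).e x = e x := by
    intro i x
    cases i with
    | none => show Sb.e x = e x; rw [hb2]
    | some k => show (Sc k).e x = e x; rw [hcc2]
  have hSyinf : ∀ x, ⨅ j, (Sy j).Vs x = ⊥ := by
    intro x
    rw [iInf_option]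
    have h1 : (Sy none).Vs x = Vp b x := hb4 x
    have h2 : ∀ k, (Sy (some k)).Vs x = Vp (c k) x := fun k => hcc4 k x
    rw [h1]
    simp only [h2]
    exact hinf x
  have hcomm : ∀ i j x, (Sy i).g ((Sy j).g x) = (Sy j).g ((Sy i).g x) := by
    have key : ∀ i, ∃ w : G, (Sy i).g = A w := by
      intro i
      cases i with
      | none => exact ⟨-(n₀ • b), by rw [← hA.symm_eq, ← hb1]; rfl⟩
      | some k => exact ⟨-(n₀ • c k), by rw [← hA.symm_eq, ← hcc1 k]; rfl⟩
    intro i j x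
    obtain ⟨w, hw⟩ := key i
    obtain ⟨w', hw'⟩ := key j
    rw [hw, hw', hA.comm]
  obtain ⟨ls, ε, hε, hsep⟩ := sep_of_inf Sy e hSye hSyinf
  -- global product structure
  have hGPS : GPS (A b) := by
    have hLP : ∀ k, ∃ c, LP (Sy k).g c := fun k => exists_LP (Sy k)
    choose cc hcLP using hLP
    have hall : ∀ a s, WS (Sy none).g a s → Lf (Sy none).g a s := by
      refine all_good' (fun k => (Sy k).g) cc hcLP hcomm none ls (fun j _ => ?_) hε hsep
      have hrel : ∀ k, Nest (Sy (some k)).g (Sy none).g ∧ Nest (Sy none).g.symm (Sy (some k)).g.symm := by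
        intro k
        refine ⟨?_, ?_⟩
        · exact nest_of_le (Sy (some k)).symm (Sy none).symm
            (fun x => show (Sy (some k)).e x = (Sy none).e x from
              ((hSye _ x).trans (hSye _ x).symm))
            (fun x => by
              show (Sy (some k)).g.symm ((Sy none).g.symm x) =
                (Sy none).g.symm ((Sy (some k)).g.symm x)
              exact comm_symm_left (g := (Sy none).g.symm) (φ := (Sy (some k)).g)
                (comm_symm_right (g := (Sy none).g) (φ := (Sy (some k)).g)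
                  (fun x => hcomm _ _ x)) x)
            (fun x => by
              show (Sc k).Vu x ≤ Sb.Vu x
              rw [hcc4, hb4]
              exact hVp _ _ (hbc_p k) x)
        · exact nest_of_le (Sy none) (Sy (some k)) (fun x => ((hSye _ x).trans (hSye _ x).symm))
            (fun x => hcomm _ _ x)
            (fun x => by
              show Sb.Vs x ≤ (Sc k).Vs x
              rw [hcc3, hb3]
              exact hVn _ _ (hbc_n k) x)
      cases j with
      | none => exact Relation.EqvGen.refl _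
      | some k => exact Relation.EqvGen.rel _ _ (hrel k)
    have e0 : (Sy none).g = iterHomeo (A (-b)) n₀ := by
      rw [iterHomeo_eq hA, smul_neg, ← hA.symm_eq, ← hb1]
      rfl
    have hLPn := hcLP none
    rw [e0] at hLPn hall
    obtain ⟨c', hc', ⟨T⟩⟩ := exists_IQS hLPn hX hall
    have h5 : GPS (A (-b)) := gps_of_iqs hn₀ rfl hLPn hc' T
    have h6 := h5.symm
    rwa [hA.symm_eq, neg_neg] at h6
  -- the base system
  obtain ⟨cg, hcg⟩ := hSb.lp
  have hLPi : LP (iterHomeo (A b) n₀) cg := by rwa [iterHomeo_eq hA]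
  have hlf := lf_of_gps hn₀ hLPi hX hGPS
  have htr : TopTransitive (A b) := by
    obtain ⟨c', hc', ⟨T⟩⟩ := exists_IQS hLPi hX hlf
    exact trans_of_iqs rfl hLPi hc' T
  have hcov : ∃ π : E → X, IsCoveringMap π := by
    obtain ⟨c', hc', ⟨T⟩⟩ := exists_IQS hLPi hX hlf
    obtain ⟨q, hq, p, hp⟩ := Sb.exists_periodic
    rw [hb1, ← iterHomeo_eq hA] at hp
    exact exists_covering hLPi hc' T.toQS p q hq hp
  refine ⟨htr, hGPS, hcov, ?_⟩
  rw [iterHomeo_eq hA] at hlf
  set β := n₀ • b with hβ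
  have hc0 := hcg.c_pos
  obtain ⟨c₁, hc₁, T, hT⟩ := exists_QS' hcg hX hlf
  obtain ⟨c₂, hc₂, hs⟩ := exists_sl hcg
  set c₃ := min cg c₂ with hc₃
  have hc₃0 : 0 < c₃ := lt_min hc0 hc₂
  have hs3 : Sl (A β) cg c₃ := hs.mono (min_le_right _ _)
  have hex := ex_of_lf hcg hc₃0 hs3 hlf
  refine growth' hcg hX T hc₁ (min_le_left _ _) hs3 hex hc₃0 le_rfl ?_
  -- the numbers
  obtain ⟨D, hD1, hD⟩ := fin_bound fun k : {k // 0 < χ k b} => -χ k.1 (c k) / χ k.1 b
  obtain ⟨Λ, hΛ1, hΛ⟩ := fin_bound fun p : {k // 0 < χ k b} × J =>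
    2 + (2 * χ p.1.1 b / (-χ p.1.1 (c p.1)) + 1) * |χ p.2 (c p.1)| / |χ p.2 b|
  set l : List G := (Finset.univ : Finset {k // 0 < χ k b}).toList.map fun k => n₀ • c k with hl
  have hmem : ∀ k, n₀ • c k ∈ l := fun k => List.mem_map.2 ⟨k, by simp, rfl⟩
  have hbq := bq hA hcg T hc₁ hT l (by
    intro d hd
    obtain ⟨k, -, rfl⟩ := List.mem_map.1 hd
    exact (hSc k).lp) ⟨ε, hε, fun x y hxy => hsep x y fun j _ => by
      cases j with
      | none =>
        show SR Sb.g.symm ε x y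
        rw [hb1, hA.sr_symm]
        intro k
        have h0 : -β ∈ AddSubmonoid.closure ({-β} ∪ {w | -w ∈ l}) :=
          AddSubmonoid.subset_closure (Or.inl rfl)
        have h1 := nsmul_mem h0 k
        rw [smul_neg] at h1
        exact hxy _ h1
      | some k =>
        show SR (Sc k).g.symm ε x y
        rw [hcc1, hA.sr_symm]
        intro m
        have h0 : -(n₀ • c k) ∈ AddSubmonoid.closure ({-β} ∪ {w | -w ∈ l}) :=
          AddSubmonoid.subset_closure (Or.inr (by
            show - -(n₀ • c k) ∈ l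
            rw [neg_neg]
            exact hmem k))
        have h1 := nsmul_mem h0 m
        rw [smul_neg] at h1
        exact hxy _ h1⟩ hD1 hΛ1 (by
    intro N hN
    have hev : ∀ k : {k // 0 < χ k b}, ∀ᶠ n : ℕ in atTop, ∃ a : G, NS A (n₀ • c k) a ∧
        NS A β (a - (N * n) • β) ∧ NS A (-β) (-((D * n) • β + a)) ∧
        NS A β ((Λ * (N * n)) • β - a) := by
      intro k
      obtain ⟨a, ⟨a1, a2⟩, ⟨a3, a4⟩, a5, a6⟩ := near_wall χ k.2 (hc1 k) (hc2 k) (hD k)
        (fun j => hΛ (k, j)) hN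
      have r1 := hne0 a2 a1.ne
      have r2 := hne0 a4 a3.ne
      have r3 : ∀ l, χ l (D • b + a) ≠ 0 := fun l h0 => by
        have := a5 l
        rw [h0, mul_zero] at this
        exact lt_irrefl _ this
      have r4 : ∀ l, χ l ((Λ * N) • b - a) ≠ 0 := fun l h0 => by
        have := a6 l
        rw [h0, mul_zero] at this
        exact lt_irrefl _ this
      have htend : Tendsto (fun n : ℕ => n * n₀) atTop atTop :=
        tendsto_id.atTop_mul_const' (by omega)
      filter_upwards [htend.eventually (hHS a r1), htend.eventually (hHS _ r2),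
        htend.eventually (hHS _ r3), htend.eventually (hHS _ r4)] with n s1 s2 s3 s4
      refine ⟨(n * n₀) • a, ?_, ?_, ?_, ?_⟩
      · refine HS.nsP hA (hSc k) s1 (hVn _ _ fun l hl => ?_)
        by_cases hlk : l = k.1
        · rw [hlk]
          exact a1
        · have := hc2 k l hlk
          have := a2 l hlk
          have h9 : χ l b < 0 := by nlinarith
          nlinarith
      · have e1 : (n * n₀) • a - (N * n) • β = (n * n₀) • (a - N • b) := by
          rw [hβ, smul_sub, smul_smul, smul_smul]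
          congr 2
          ring
        rw [e1]
        refine HS.nsP hA hSb s2 (hVn _ _ fun l hl => ?_)
        have hlk : l ≠ k.1 := by
          rintro rfl
          exact lt_asymm k.2 hl
        have := a4 l hlk
        nlinarith
      · have e1 : (D * n) • β + (n * n₀) • a = (n * n₀) • (D • b + a) := by
          rw [hβ, smul_add, smul_smul, smul_smul]
          congr 2
          ring
        rw [e1]
        refine HS.nsN hA hSb s3 (hVp _ _ fun l hl => ?_)
        have := a5 l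
        nlinarith
      · have e1 : (Λ * (N * n)) • β - (n * n₀) • a = (n * n₀) • ((Λ * N) • b - a) := by
          rw [hβ, smul_sub, smul_smul, smul_smul]
          congr 2
          ring
        rw [e1]
        refine HS.nsP hA hSb s4 (hVn _ _ fun l hl => ?_)
        have := a6 l
        nlinarith
    obtain ⟨n, h1, h2⟩ := ((Filter.eventually_all.2 hev).and (eventually_ge_atTop 1)).exists
    refine ⟨n, h2, fun d hd => ?_⟩
    obtain ⟨k, -, rfl⟩ := List.mem_map.1 hd
    exact h1 k) hc₃0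
  intro N hN
  obtain ⟨C, hC⟩ := hbq N hN
  exact ⟨C, bk_of_bq hA hc0 (min_le_left _ _) hC⟩

end abs

end Pool.Agent.NH49.TA
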