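import Pool.Agent.NH49.TA.M2

set_option autoImplicit false
set_option linter.unusedSectionVars false

open Filter Topology Set Metric
open scoped Manifold ContDiff Pointwise

namespace Pool.Agent.NH49.TA

open Pool.Agent.H721R2 Pool.Agent.H789R2.AN Pool.Agent.H789R2.GP Pool.Agent.TH304.K289
open Pool.Agent.TH289.L Pool.Agent.TH289 Pool.Agent.TH289.K
open Pool.Agent.Y330.G Pool.Agent.Y330.H Pool.Agent.Y330.J

theorem lin_inf {V ι : Type*} [AddCommGroup V] [Module ℝ V] (Fj P N : ι → Submodule ℝ V)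
    (h1 : ∀ k, Disjoint (N k) (P k)) (h2 : ∀ k, Fj k ≤ N k) (h3 : ∀ k j, j ≠ k → Fj j ≤ P k)
    (s : Finset ι) : ∀ v : V, v ∈ ⨆ j ∈ s, Fj j → (∀ k, v ∈ P k) → v = 0 := by
  classical
  induction s using Finset.induction_on with
  | empty =>
    intro v hv _
    simpa using hv
  | insert k s hk ih =>
    intro v hv hP
    rw [Finset.iSup_insert, Submodule.mem_sup] at hv
    obtain ⟨f, hf, w, hw, rfl⟩ := hv
    have hwP : w ∈ P k := by
      have h4 : ⨆ j ∈ s, Fj j ≤ P k := iSup₂_le fun j hj => h3 k j (by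
        rintro rfl
        exact hk hj)
      exact h4 hw
    have hfP : f ∈ P k := by
      have := Submodule.sub_mem _ (hP k) hwP
      rwa [add_sub_cancel_right] at this
    have hf0 : f = 0 := (Submodule.disjoint_def.1 (h1 k)) f (h2 k hf) hfP
    rw [hf0, zero_add] at hP ⊢
    exact ih w hw hP

section manifold

variable {E : Type*} [NormedAddCommGroup E] [NormedSpace ℝ E] [FiniteDimensional ℝ E]
  {M : Type*} [TopologicalSpace M] [T2Space M] [CompactSpace M] [ConnectedSpace M]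
  [ChartedSpace E M] [IsManifold 𝓘(ℝ, E) ∞ M]

theorem man_flip {G J : Type*} [AddCommGroup G] [Finite J]
    (α : G → Diffeomorph 𝓘(ℝ, E) 𝓘(ℝ, E) M M 1) (hα : ∀ a b x, α (a + b) x = α a (α b x))
    (χ : J → G →+ ℝ) (F : J → ∀ x : M, Submodule ℝ (TangentSpace 𝓘(ℝ, E) x))
    (hAn : ∀ a, (∀ l, χ l a ≠ 0) → IsAnosov (α a) (negField χ F a) (posField χ F a))
    (b : G) (hb : ∀ l, χ l b ≠ 0)
    (hflip : ∀ k, 0 < χ k b → ∃ c, χ k c < 0 ∧ ∀ j ≠ k, 0 < χ j b * χ j c) :
    TopTransitive (α b) ∧ GPS (α b).toHomeomorph ∧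
      (∃ π : E → M, IsCoveringMap π ∧ Function.Surjective π) ∧ PG M := by
  classical
  have := Fintype.ofFinite {k // 0 < χ k b}
  choose c hc1 hc2 using fun k : {k // 0 < χ k b} => hflip k.1 k.2
  obtain ⟨m, e, he, hemb, hinj⟩ := exists_embedding_euclidean_of_compact (I := 𝓘(ℝ, E)) (M := M)
  let _ : MetricSpace M := hemb.isEmbedding.comapMetricSpace e
  have hiso : ∀ x y : M, dist x y = ‖e x - e y‖ := fun x y => dist_eq_norm (e x) (e y)
  have he1 : ContMDiff 𝓘(ℝ, E) (𝓡 m) 1 e := he.of_le (by simp)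
  have : ProperSpace E := FiniteDimensional.proper_real E
  let A : G → M ≃ₜ M := fun a => (α a).toHomeomorph
  have hA : Act A := fun a b x => hα a b x
  let Vp : G → M → Submodule ℝ (EuclideanSpace ℝ (Fin m)) := fun u x =>
    Submodule.map (dm E e x).toLinearMap (posField χ F u x)
  let Vn : G → M → Submodule ℝ (EuclideanSpace ℝ (Fin m)) := fun u x =>
    Submodule.map (dm E e x).toLinearMap (negField χ F u x)
  have hVn : ∀ u v : G, (∀ l, χ l u < 0 → χ l v < 0) → ∀ x, Vn u x ≤ Vn v x := fun u v h x =>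
    Submodule.map_mono (negField_mono χ F h x)
  have hVp : ∀ u v : G, (∀ l, 0 < χ l u → 0 < χ l v) → ∀ x, Vp u x ≤ Vp v x := fun u v h x =>
    Submodule.map_mono (posField_mono χ F h x)
  have hHS : ∀ u : G, (∀ l, χ l u ≠ 0) → ∀ᶠ n in atTop, HS A e Vp Vn u n := by
    intro u hu
    filter_upwards [exists_sys_ev hiso he1 hinj (α u) _ _ (hAn u hu)] with n hn
    obtain ⟨S, h1, h2, h3, h4⟩ := hn
    exact ⟨S, by rw [h1]; exact iterHomeo_eq hA u n, h2, h3, h4⟩
  have hcreg : ∀ k, ∀ l, χ l (c k) ≠ 0 := by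
    intro k l
    by_cases hl : l = k.1
    · rw [hl]
      exact (hc1 k).ne
    · intro h0
      have := hc2 k l hl
      rw [h0, mul_zero] at this
      exact lt_irrefl _ this
  have hinf0 : ∀ (x : M) (v : TangentSpace 𝓘(ℝ, E) x), v ∈ posField χ F b x →
      (∀ k, v ∈ posField χ F (c k) x) → v = 0 := by
    intro x v hv hk
    refine lin_inf (fun j : {k // 0 < χ k b} => F j x) (fun k => posField χ F (c k) x)
      (fun k => negField χ F (c k) x) (fun k => ((hAn (c k) (hcreg k)).isCompl x).disjoint)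
      (fun k => le_iSup (fun j : {j // χ j (c k) < 0} => F j x) ⟨k.1, hc1 k⟩)
      (fun k j hjk => ?_) Finset.univ v ?_ hk
    · have h1 : 0 < χ j.1 (c k) := by
        have h2 := hc2 k j.1 (fun h => hjk (Subtype.ext h))
        have h3 := j.2
        nlinarith
      exact le_iSup (fun j : {j // 0 < χ j (c k)} => F j x) ⟨j.1, h1⟩
    · have h1 : v ∈ ⨆ j : {k // 0 < χ k b}, F j.1 x := hv
      simpa using h1
  have hinf : ∀ x, Vp b x ⊓ ⨅ k, Vp (c k) x = ⊥ := by
    intro x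
    rw [eq_bot_iff]
    rintro v ⟨hv1, hv2⟩
    obtain ⟨w, hw, rfl⟩ := hv1
    have h1 : w = 0 := by
      refine hinf0 x w hw fun k => ?_
      obtain ⟨w', hw', h2⟩ := (Submodule.mem_iInf _).1 hv2 k
      rw [← hinj x h2]
      exact hw'
    rw [h1, map_zero]
    exact Submodule.zero_mem _
  obtain ⟨h1, h2, ⟨π, hπ⟩, h4⟩ := abs_flip (E := E) (e := e) (χ := χ) hA hVn hVp hHS b hb c hc1 hc2
    hinf
  exact ⟨h1, h2, ⟨π, hπ, covering_surj hπ⟩, h4⟩

end manifold

end Pool.Agent.NH49.TA
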