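import Pool.Agent.NH49.TA.M3

set_option autoImplicit false
set_option linter.unusedSectionVars false

open Filter Topology Set Metric
open scoped Manifold ContDiff Pointwise

namespace Pool.Agent.NH49.TA

open Pool.Agent.H721R2 Pool.Agent.H789R2.AN Pool.Agent.H789R2.GP Pool.Agent.TH304.K289
open Pool.Agent.TH289.L Pool.Agent.TH289 Pool.Agent.TH289.K
open Pool.Agent.Y330.G Pool.Agent.Y330.H Pool.Agent.Y330.J

section comb

variable {G : Type*} [AddCommGroup G]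

theorem fin3 : ∀ p : Fin 3, ∃ q r : Fin 3, q ≠ p ∧ r ≠ p ∧ q ≠ r ∧ ∀ j, j = p ∨ j = q ∨ j = r := by
  decide

theorem fin3' : ∀ p q : Fin 3, q ≠ p → ∃ r : Fin 3, r ≠ p ∧ r ≠ q ∧
    ∀ j, j = p ∨ j = q ∨ j = r := by
  decide

/-- three characters -/
theorem three (χ : Fin 3 → G →+ ℝ) (hTNS : ∀ i j, ∀ c : ℝ, 0 < c → ∃ a, χ i a ≠ -c * χ j a)
    (hno : ∀ a, ¬ ∀ l, χ l a < 0) : ∃ b, (∀ l, χ l b ≠ 0) ∧
      ∀ k, 0 < χ k b → ∃ c, χ k c < 0 ∧ ∀ j ≠ k, 0 < χ j b * χ j c := by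
  obtain ⟨a₀, ha₀⟩ := exists_regular χ fun l => by
    obtain ⟨a, ha⟩ := hTNS l l 1 one_pos
    refine ⟨a, fun h0 => ha ?_⟩
    rw [h0]; simp
  have hno' : ∀ a, ¬ ∀ l, 0 < χ l a := fun a h => hno (-a) fun l => by
    rw [map_neg]
    linarith [h l]
  -- an element with exactly one positive character
  obtain ⟨a, p, hp, hj⟩ : ∃ a, ∃ p, 0 < χ p a ∧ ∀ j ≠ p, χ j a < 0 := by
    have h1 : ∃ p, 0 < χ p a₀ := by
      by_contra hcon
      push Not at hcon
      exact hno a₀ fun l => lt_of_le_of_ne (hcon l) (ha₀ l)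
    have h2 : ∃ p, χ p a₀ < 0 := by
      by_contra hcon
      push Not at hcon
      exact hno' a₀ fun l => lt_of_le_of_ne (hcon l) (ha₀ l).symm
    obtain ⟨p, hp⟩ := h1
    obtain ⟨q, hq⟩ := h2
    have hpq : q ≠ p := by
      rintro rfl
      exact lt_asymm hp hq
    obtain ⟨r, hr1, hr2, hr⟩ := fin3' p q hpq
    rcases lt_or_gt_of_ne (ha₀ r) with h3 | h3
    · refine ⟨a₀, p, hp, fun j hj => ?_⟩
      rcases hr j with rfl | rfl | rfl
      · exact absurd rfl hj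
      · exact hq
      · exact h3
    · refine ⟨-a₀, q, by rw [map_neg]; linarith, fun j hj => ?_⟩
      rw [map_neg]
      rcases hr j with rfl | rfl | rfl
      · linarith
      · exact absurd rfl hj
      · linarith
  have hareg : ∀ l, χ l a ≠ 0 := by
    intro l
    by_cases hl : l = p
    · rw [hl]
      exact hp.ne'
    · exact (hj l hl).ne
  have hnreg : ∀ l, χ l (-a) ≠ 0 := fun l => by
    rw [map_neg]
    exact neg_ne_zero.2 (hareg l)
  have key : ∀ q ≠ p, ∀ r, r ≠ p → q ≠ r → (∀ j, j = p ∨ j = q ∨ j = r) →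
      ∃ c, 0 < χ p c ∧ 0 < χ q c ∧ χ r c < 0 := by
    intro q hq r hr hqr hall
    obtain ⟨c, hc1, -, hc3⟩ := between χ hTNS a (-a) hareg hnreg p q hp
      (by rw [map_neg]; linarith) (hj q hq)
    obtain ⟨c', hc', hcp, hcq⟩ : ∃ c', (∀ l, χ l c' ≠ 0) ∧ 0 < χ p c' ∧ 0 < χ q c' := by
      rcases lt_or_gt_of_ne (hc1 p) with h1 | h1
      · refine ⟨-c, fun l => by rw [map_neg]; exact neg_ne_zero.2 (hc1 l), ?_, ?_⟩
        · rw [map_neg]
          linarith
        · rw [map_neg]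
          nlinarith
      · refine ⟨c, hc1, h1, ?_⟩
        nlinarith
    refine ⟨c', hcp, hcq, ?_⟩
    by_contra hcon
    have h2 : 0 < χ r c' := lt_of_le_of_ne (not_lt.1 hcon) (hc' r).symm
    refine hno' c' fun l => ?_
    rcases hall l with rfl | rfl | rfl
    · exact hcp
    · exact hcq
    · exact h2
  obtain ⟨q, r, hq, hr, hqr, hall⟩ := fin3 p
  obtain ⟨b, b1, b2, b3⟩ := key q hq r hr hqr hall
  obtain ⟨d, d1, d2, d3⟩ := key r hr q hq hqr.symm (fun j => by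
    rcases hall j with h | h | h
    · exact Or.inl h
    · exact Or.inr (Or.inr h)
    · exact Or.inr (Or.inl h))
  refine ⟨b, fun l => ?_, fun k hk => ?_⟩
  · rcases hall l with rfl | rfl | rfl
    · exact b1.ne'
    · exact b2.ne'
    · exact b3.ne
  · rcases hall k with h | h | h
    · subst h
      refine ⟨-d, by rw [map_neg]; linarith, fun j hj => ?_⟩
      rw [map_neg]
      rcases hall j with h | h | h
      · exact absurd h hj
      · subst h
        nlinarith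
      · subst h
        nlinarith
    · subst h
      refine ⟨a, hj k hq, fun j hjk => ?_⟩
      rcases hall j with h | h | h
      · subst h
        positivity
      · exact absurd h hjk
      · subst h
        have := hj j hr
        nlinarith
    · subst h
      exact absurd hk (not_lt.2 b3.le)

/-- at most three characters -/
theorem exists_flip {J : Type*} [Finite J] (χ : J → G →+ ℝ) (hJ : Nat.card J ≤ 3)
    (hTNS : ∀ i j, ∀ c : ℝ, 0 < c → ∃ a, χ i a ≠ -c * χ j a) : ∃ b, (∀ l, χ l b ≠ 0) ∧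
      ∀ k, 0 < χ k b → ∃ c, χ k c < 0 ∧ ∀ j ≠ k, 0 < χ j b * χ j c := by
  rcases isEmpty_or_nonempty J with hE | hE
  · exact ⟨0, fun l => (hE.false l).elim, fun k => (hE.false k).elim⟩
  obtain ⟨f, hf⟩ : ∃ f : J → Fin 3, Function.Injective f :=
    ⟨fun j => Fin.castLE hJ (Finite.equivFin J j),
      fun a b h => (Finite.equivFin J).injective (Fin.castLE_injective hJ h)⟩
  set p : Fin 3 → J := Function.invFun f with hp
  have hps : Function.Surjective p := Function.invFun_surjective hf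
  by_cases hno : ∀ a, ¬ ∀ l, χ (p l) a < 0
  · obtain ⟨b, h1, h2⟩ := three (fun l => χ (p l)) (fun i j => hTNS (p i) (p j)) hno
    refine ⟨b, fun l => ?_, fun k hk => ?_⟩
    · obtain ⟨l, rfl⟩ := hps l
      exact h1 l
    · obtain ⟨k, rfl⟩ := hps k
      obtain ⟨c, h3, h4⟩ := h2 k hk
      refine ⟨c, h3, fun j hj => ?_⟩
      obtain ⟨j, rfl⟩ := hps j
      exact h4 j (by
        rintro rfl
        exact hj rfl)
  · push Not at hno
    obtain ⟨a, ha⟩ := hno
    have ha' : ∀ l, χ l a < 0 := fun l => by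
      obtain ⟨l, rfl⟩ := hps l
      exact ha l
    exact ⟨a, fun l => (ha' l).ne, fun k hk => absurd hk (not_lt.2 (ha' k).le)⟩

end comb

section manifold

variable {E : Type*} [NormedAddCommGroup E] [NormedSpace ℝ E] [FiniteDimensional ℝ E]
  {M : Type*} [TopologicalSpace M] [T2Space M] [CompactSpace M] [ConnectedSpace M]
  [ChartedSpace E M] [IsManifold 𝓘(ℝ, E) ∞ M]

theorem man_final {G J : Type*} [AddCommGroup G] [Finite J]
    (α : G → Diffeomorph 𝓘(ℝ, E) 𝓘(ℝ, E) M M 1) (hα : ∀ a b x, α (a + b) x = α a (α b x))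
    (χ : J → G →+ ℝ) (F : J → ∀ x : M, Submodule ℝ (TangentSpace 𝓘(ℝ, E) x))
    (hAn : ∀ a, (∀ l, χ l a ≠ 0) → IsAnosov (α a) (negField χ F a) (posField χ F a))
    (h : (∃ b, (∀ l, χ l b ≠ 0) ∧ ∀ k, 0 < χ k b → ∃ c, χ k c < 0 ∧
        ∀ j ≠ k, 0 < χ j b * χ j c) ∨
      (Nat.card J ≤ 3 ∧ ∀ i j, ∀ c : ℝ, 0 < c → ∃ a, χ i a ≠ -c * χ j a)) :
    (∃ π : E → M, IsCoveringMap π ∧ Function.Surjective π) ∧
    (∃ d : ℕ, ∀ (x : M) (S : Set (FundamentalGroup M x)), S.Finite →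
      ∃ C : ℕ, ∀ n : ℕ, (S ^ n).ncard ≤ C * (n + 1) ^ d) ∧
    ∀ b, (∀ l, χ l b ≠ 0) → (∀ k, 0 < χ k b → ∃ c, χ k c < 0 ∧ ∀ j ≠ k, 0 < χ j b * χ j c) →
      TopTransitive (α b) ∧ GPS (α b).toHomeomorph := by
  have h0 : ∃ b, (∀ l, χ l b ≠ 0) ∧ ∀ k, 0 < χ k b → ∃ c, χ k c < 0 ∧
      ∀ j ≠ k, 0 < χ j b * χ j c := by
    rcases h with h | ⟨h1, h2⟩
    · exact h
    · exact exists_flip χ h1 h2
  obtain ⟨b, hb, hflip⟩ := h0
  obtain ⟨-, -, h3, h4⟩ := man_flip α hα χ F hAn b hb hflip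
  refine ⟨h3, h4, fun b' hb' hflip' => ?_⟩
  obtain ⟨h5, h6, -, -⟩ := man_flip α hα χ F hAn b' hb' hflip'
  exact ⟨h5, h6⟩

end manifold

end Pool.Agent.NH49.TA
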