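import Pool.Agent.NH49.TA.M4

set_option autoImplicit false
set_option linter.unusedSectionVars false

open Filter Topology Set Metric
open scoped Manifold ContDiff Pointwise

namespace Pool.Agent.NH49.TA

open Pool.Agent.H721R2 Pool.Agent.H789R2.AN Pool.Agent.H789R2.GP Pool.Agent.TH304.K289
open Pool.Agent.TH289.L Pool.Agent.TH289 Pool.Agent.TH289.K
open Pool.Agent.Y330.G Pool.Agent.Y330.H Pool.Agent.Y330.J

section comb

variable {G : Type*} [AddCommGroup G] {χ : Fin 4 → G →+ ℝ}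

/-- exactly one of the characters is positive at `a` -/
def Sg (χ : Fin 4 → G →+ ℝ) (a : G) (p : Fin 4) : Prop := 0 < χ p a ∧ ∀ j ≠ p, χ j a < 0

theorem sg_of {a : G} {p q r s : Fin 4} (hall : ∀ j, j = p ∨ j = q ∨ j = r ∨ j = s)
    (hp : 0 < χ p a) (hq : χ q a < 0) (hr : χ r a < 0) (hs : χ s a < 0) : Sg χ a p := by
  refine ⟨hp, fun j hj => ?_⟩
  rcases hall j with rfl | rfl | rfl | rfl
  · exact absurd rfl hj
  · exact hq
  · exact hr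
  · exact hs

theorem sg_neg_of {a : G} {p q r s : Fin 4} (hall : ∀ j, j = p ∨ j = q ∨ j = r ∨ j = s)
    (hp : χ p a < 0) (hq : 0 < χ q a) (hr : 0 < χ r a) (hs : 0 < χ s a) : Sg χ (-a) p :=
  sg_of hall (by rw [map_neg]; linarith) (by rw [map_neg]; linarith) (by rw [map_neg]; linarith)
    (by rw [map_neg]; linarith)

theorem reg_neg {a : G} (h : ∀ l, χ l a ≠ 0) : ∀ l, χ l (-a) ≠ 0 := fun l => by
  rw [map_neg]
  exact neg_ne_zero.2 (h l)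

theorem no_pos (hno : ∀ a, ¬ ∀ l, χ l a < 0) {a : G} {p q r s : Fin 4}
    (hall : ∀ j, j = p ∨ j = q ∨ j = r ∨ j = s)
    (hp : 0 < χ p a) (hq : 0 < χ q a) (hr : 0 < χ r a) (hs : 0 < χ s a) : False := by
  refine hno (-a) fun l => ?_
  rw [map_neg]
  rcases hall l with rfl | rfl | rfl | rfl <;> linarith

/-- an element where `χ p` and `χ q` are positive -/
theorem between' (hTNS : ∀ i j, ∀ c : ℝ, 0 < c → ∃ a, χ i a ≠ -c * χ j a) {a : G}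
    (ha : ∀ l, χ l a ≠ 0) {p q : Fin 4} (hp : 0 < χ p a) (hq : χ q a < 0) :
    ∃ c, (∀ l, χ l c ≠ 0) ∧ 0 < χ p c ∧ 0 < χ q c := by
  obtain ⟨c, hc1, -, hc3⟩ := between χ hTNS a (-a) ha (reg_neg ha) p q hp
    (by rw [map_neg]; linarith) hq
  rcases lt_or_gt_of_ne (hc1 p) with h1 | h1
  · refine ⟨-c, reg_neg hc1, ?_, ?_⟩
    · rw [map_neg]
      linarith
    · rw [map_neg]
      nlinarith
  · refine ⟨c, hc1, h1, ?_⟩
    nlinarith

theorem same_pos {x y : ℝ} (h : 0 < x * y) (hx : 0 < x) : 0 < y := by nlinarith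

theorem same_neg {x y : ℝ} (h : 0 < x * y) (hx : x < 0) : y < 0 := by nlinarith

theorem size2 (hTNS : ∀ i j, ∀ c : ℝ, 0 < c → ∃ a, χ i a ≠ -c * χ j a)
    (hno : ∀ a, ¬ ∀ l, χ l a < 0) {a : G} {p q r s : Fin 4}
    (h1 : ∀ j, j = p ∨ j = q ∨ j = r ∨ j = s) (hp : 0 < χ p a) (hq : 0 < χ q a)
    (hr : χ r a < 0) (hs : χ s a < 0) : ∃ a' p', Sg χ a' p' := by
  have ha : ∀ l, χ l a ≠ 0 := fun l => by
    rcases h1 l with rfl | rfl | rfl | rfl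
    · exact hp.ne'
    · exact hq.ne'
    · exact hr.ne
    · exact hs.ne
  have hs' : ∀ j, j = s ∨ j = p ∨ j = q ∨ j = r := fun j => by
    rcases h1 j with h | h | h | h <;> simp [h]
  have hq' : ∀ j, j = q ∨ j = p ∨ j = r ∨ j = s := fun j => by
    rcases h1 j with h | h | h | h <;> simp [h]
  obtain ⟨c, hc, cp, cr⟩ := between' hTNS ha hp hr
  rcases lt_or_gt_of_ne (hc q) with cq | cq <;> rcases lt_or_gt_of_ne (hc s) with cs | cs
  · obtain ⟨d, hd, hd2, hd3⟩ := between χ hTNS a c ha hc q r hq cq hr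
    have dp : 0 < χ p d := same_pos (hd2 p (mul_pos hp cp)) hp
    have ds : χ s d < 0 := same_neg (hd2 s (mul_pos_of_neg_of_neg hs cs)) hs
    rcases lt_or_gt_of_ne (hd q) with dq | dq
    · exact ⟨d, p, sg_of h1 dp dq (same_neg hd3 dq) ds⟩
    · exact ⟨-d, s, sg_neg_of hs' ds dp dq (same_pos hd3 dq)⟩
  · exact ⟨-c, q, sg_neg_of hq' cq cp cr cs⟩
  · exact ⟨-c, s, sg_neg_of hs' cs cp cq cr⟩
  · exact (no_pos hno h1 cp cq cr cs).elim

theorem exists_sg (hTNS : ∀ i j, ∀ c : ℝ, 0 < c → ∃ a, χ i a ≠ -c * χ j a)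
    (hno : ∀ a, ¬ ∀ l, χ l a < 0) : ∃ a p, Sg χ a p := by
  obtain ⟨a, ha⟩ := exists_regular χ fun l => by
    obtain ⟨a, ha⟩ := hTNS l l 1 one_pos
    refine ⟨a, fun h0 => ha ?_⟩
    rw [h0]; simp
  have e0 : ∀ j : Fin 4, j = 0 ∨ j = 1 ∨ j = 2 ∨ j = 3 := by decide
  have e1 : ∀ j : Fin 4, j = 1 ∨ j = 0 ∨ j = 2 ∨ j = 3 := by decide
  have e2 : ∀ j : Fin 4, j = 2 ∨ j = 0 ∨ j = 1 ∨ j = 3 := by decide
  have e3 : ∀ j : Fin 4, j = 3 ∨ j = 0 ∨ j = 1 ∨ j = 2 := by decide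
  have f1 : ∀ j : Fin 4, j = 0 ∨ j = 2 ∨ j = 1 ∨ j = 3 := by decide
  have f2 : ∀ j : Fin 4, j = 0 ∨ j = 3 ∨ j = 1 ∨ j = 2 := by decide
  have f3 : ∀ j : Fin 4, j = 1 ∨ j = 2 ∨ j = 0 ∨ j = 3 := by decide
  have f4 : ∀ j : Fin 4, j = 1 ∨ j = 3 ∨ j = 0 ∨ j = 2 := by decide
  have f5 : ∀ j : Fin 4, j = 2 ∨ j = 3 ∨ j = 0 ∨ j = 1 := by decide
  rcases lt_or_gt_of_ne (ha 0) with h0 | h0 <;> rcases lt_or_gt_of_ne (ha 1) with h1 | h1 <;>
    rcases lt_or_gt_of_ne (ha 2) with h2 | h2 <;> rcases lt_or_gt_of_ne (ha 3) with h3 | h3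
  · exact (hno a fun l => by rcases e0 l with rfl | rfl | rfl | rfl <;> assumption).elim
  · exact ⟨a, 3, sg_of e3 h3 h0 h1 h2⟩
  · exact ⟨a, 2, sg_of e2 h2 h0 h1 h3⟩
  · exact size2 hTNS hno f5 h2 h3 h0 h1
  · exact ⟨a, 1, sg_of e1 h1 h0 h2 h3⟩
  · exact size2 hTNS hno f4 h1 h3 h0 h2
  · exact size2 hTNS hno f3 h1 h2 h0 h3
  · exact ⟨-a, 0, sg_neg_of e0 h0 h1 h2 h3⟩
  · exact ⟨a, 0, sg_of e0 h0 h1 h2 h3⟩
  · exact size2 hTNS hno f2 h0 h3 h1 h2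
  · exact size2 hTNS hno f1 h0 h2 h1 h3
  · exact ⟨-a, 1, sg_neg_of e1 h1 h0 h2 h3⟩
  · exact size2 hTNS hno e0 h0 h1 h2 h3
  · exact ⟨-a, 2, sg_neg_of e2 h2 h0 h1 h3⟩
  · exact ⟨-a, 3, sg_neg_of e3 h3 h0 h1 h2⟩
  · exact (no_pos hno e0 h0 h1 h2 h3).elim

theorem fin4 : ∀ p : Fin 4, ∃ q r s : Fin 4, q ≠ p ∧ r ≠ p ∧ s ≠ p ∧
    (∀ j, j = p ∨ j = q ∨ j = r ∨ j = s) ∧ (∀ j, j = q ∨ j = p ∨ j = r ∨ j = s) ∧
    (∀ j, j = r ∨ j = p ∨ j = q ∨ j = s) ∧ (∀ j, j = s ∨ j = p ∨ j = q ∨ j = r) := by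
  decide

theorem exists_sg2 (hTNS : ∀ i j, ∀ c : ℝ, 0 < c → ∃ a, χ i a ≠ -c * χ j a)
    (hno : ∀ a, ¬ ∀ l, χ l a < 0) {a : G} {p : Fin 4} (h : Sg χ a p) :
    ∃ a' q, q ≠ p ∧ Sg χ a' q := by
  obtain ⟨q, r, s, hqp, hrp, hsp, h1, hq', hr', hs'⟩ := fin4 p
  have hp := h.1
  have hq := h.2 q hqp
  have hr := h.2 r hrp
  have hs := h.2 s hsp
  have ha : ∀ l, χ l a ≠ 0 := fun l => by
    by_cases hl : l = p
    · rw [hl]
      exact hp.ne'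
    · exact (h.2 l hl).ne
  obtain ⟨c, hc, cp, cq⟩ := between' hTNS ha hp hq
  rcases lt_or_gt_of_ne (hc r) with cr | cr <;> rcases lt_or_gt_of_ne (hc s) with cs | cs
  · obtain ⟨d, hd, hd2, hd3⟩ := between χ hTNS c (-a) hc (reg_neg ha) p r cp
      (by rw [map_neg]; linarith) cr
    have dq : 0 < χ q d := same_pos (hd2 q (mul_pos cq (by rw [map_neg]; linarith))) cq
    rcases lt_or_gt_of_ne (hd p) with dp | dp
    · have dr := same_neg hd3 dp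
      rcases lt_or_gt_of_ne (hd s) with ds | ds
      · exact ⟨d, q, hqp, sg_of hq' dq dp dr ds⟩
      · obtain ⟨e, he, he2, he3⟩ := between χ hTNS c d hc hd p s cp dp cs
        have eq : 0 < χ q e := same_pos (he2 q (mul_pos cq dq)) cq
        have er : χ r e < 0 := same_neg (he2 r (mul_pos_of_neg_of_neg cr dr)) cr
        rcases lt_or_gt_of_ne (he p) with ep | ep
        · exact ⟨e, q, hqp, sg_of hq' eq ep er (same_neg he3 ep)⟩
        · exact ⟨-e, r, hrp, sg_neg_of hr' er ep eq (same_pos he3 ep)⟩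
    · have dr := same_pos hd3 dp
      rcases lt_or_gt_of_ne (hd s) with ds | ds
      · exact ⟨-d, s, hsp, sg_neg_of hs' ds dp dq dr⟩
      · exact (no_pos hno h1 dp dq dr ds).elim
  · exact ⟨-c, r, hrp, sg_neg_of hr' cr cp cq cs⟩
  · exact ⟨-c, s, hsp, sg_neg_of hs' cs cp cq cr⟩
  · exact (no_pos hno h1 cp cq cr cs).elim

/-- four characters -/
theorem four (χ : Fin 4 → G →+ ℝ) (hTNS : ∀ i j, ∀ c : ℝ, 0 < c → ∃ a, χ i a ≠ -c * χ j a)
    (hno : ∀ a, ¬ ∀ l, χ l a < 0) : ∃ b, (∀ l, χ l b ≠ 0) ∧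
      ∀ k, 0 < χ k b → ∃ c, χ k c < 0 ∧ ∀ j ≠ k, 0 < χ j b * χ j c := by
  obtain ⟨a, p, h⟩ := exists_sg hTNS hno
  obtain ⟨a', q, hqp, h'⟩ := exists_sg2 hTNS hno h
  have ha : ∀ l, χ l a ≠ 0 := fun l => by
    by_cases hl : l = p
    · rw [hl]
      exact h.1.ne'
    · exact (h.2 l hl).ne
  have ha' : ∀ l, χ l a' ≠ 0 := fun l => by
    by_cases hl : l = q
    · rw [hl]
      exact h'.1.ne'
    · exact (h'.2 l hl).ne
  obtain ⟨b, hb, hb2, hb3⟩ := between χ hTNS a a' ha ha' p q h.1 (h'.2 p hqp.symm) (h.2 q hqp)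
  have hneg : ∀ l, l ≠ p → l ≠ q → χ l b < 0 := fun l hl hl' =>
    same_neg (hb2 l (mul_pos_of_neg_of_neg (h.2 l hl) (h'.2 l hl'))) (h.2 l hl)
  have hp : 0 < χ p b := by
    rcases lt_or_gt_of_ne (hb p) with bp | bp
    · refine (hno b fun l => ?_).elim
      by_cases h1 : l = p
      · rw [h1]
        exact bp
      · by_cases h2 : l = q
        · rw [h2]
          exact same_neg hb3 bp
        · exact hneg l h1 h2
    · exact bp
  have hq : 0 < χ q b := same_pos hb3 hp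
  refine ⟨b, hb, fun k hk => ?_⟩
  by_cases h1 : k = p
  · subst h1
    refine ⟨a', h'.2 k hqp.symm, fun j hj => ?_⟩
    by_cases h2 : j = q
    · rw [h2]
      exact mul_pos hq h'.1
    · exact mul_pos_of_neg_of_neg (hneg j hj h2) (h'.2 j h2)
  · by_cases h2 : k = q
    · subst h2
      refine ⟨a, h.2 k h1, fun j hj => ?_⟩
      by_cases h3 : j = p
      · rw [h3]
        exact mul_pos hp h.1
      · exact mul_pos_of_neg_of_neg (hneg j h3 hj) (h.2 j h3)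
    · exact absurd hk (not_lt.2 (hneg k h1 h2).le)

/-- at most four characters -/
theorem exists_flip4 {J : Type*} [Finite J] (χ : J → G →+ ℝ) (hJ : Nat.card J ≤ 4)
    (hTNS : ∀ i j, ∀ c : ℝ, 0 < c → ∃ a, χ i a ≠ -c * χ j a) : ∃ b, (∀ l, χ l b ≠ 0) ∧
      ∀ k, 0 < χ k b → ∃ c, χ k c < 0 ∧ ∀ j ≠ k, 0 < χ j b * χ j c := by
  rcases isEmpty_or_nonempty J with hE | hE
  · exact ⟨0, fun l => (hE.false l).elim, fun k => (hE.false k).elim⟩
  obtain ⟨f, hf⟩ : ∃ f : J → Fin 4, Function.Injective f :=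
    ⟨fun j => Fin.castLE hJ (Finite.equivFin J j),
      fun a b h => (Finite.equivFin J).injective (Fin.castLE_injective hJ h)⟩
  set p : Fin 4 → J := Function.invFun f with hp
  have hps : Function.Surjective p := Function.invFun_surjective hf
  by_cases hno : ∀ a, ¬ ∀ l, χ (p l) a < 0
  · obtain ⟨b, h1, h2⟩ := four (fun l => χ (p l)) (fun i j => hTNS (p i) (p j)) hno
    refine ⟨b, fun l => ?_, fun k hk => ?_⟩
    · obtain ⟨l, rfl⟩ := hps l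
      exact h1 l
    · obtain ⟨k, rfl⟩ := hps k
      obtain ⟨c, h3, h4⟩ := h2 k hk
      refine ⟨c, h3, fun j hj => ?_⟩
      obtain ⟨j, rfl⟩ := hps j
      exact h4 j (by
        rintro rfl
        exact hj rfl)
  · push Not at hno
    obtain ⟨a, ha⟩ := hno
    have ha' : ∀ l, χ l a < 0 := fun l => by
      obtain ⟨l, rfl⟩ := hps l
      exact ha l
    exact ⟨a, fun l => (ha' l).ne, fun k hk => absurd hk (not_lt.2 (ha' k).le)⟩

end comb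

section manifold

variable {E : Type*} [NormedAddCommGroup E] [NormedSpace ℝ E] [FiniteDimensional ℝ E]
  {M : Type*} [TopologicalSpace M] [T2Space M] [CompactSpace M] [ConnectedSpace M]
  [ChartedSpace E M] [IsManifold 𝓘(ℝ, E) ∞ M]

theorem man_final4 {G J : Type*} [AddCommGroup G] [Finite J]
    (α : G → Diffeomorph 𝓘(ℝ, E) 𝓘(ℝ, E) M M 1) (hα : ∀ a b x, α (a + b) x = α a (α b x))
    (χ : J → G →+ ℝ) (F : J → ∀ x : M, Submodule ℝ (TangentSpace 𝓘(ℝ, E) x))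
    (hAn : ∀ a, (∀ l, χ l a ≠ 0) → IsAnosov (α a) (negField χ F a) (posField χ F a))
    (h : (∃ b, (∀ l, χ l b ≠ 0) ∧ ∀ k, 0 < χ k b → ∃ c, χ k c < 0 ∧
        ∀ j ≠ k, 0 < χ j b * χ j c) ∨
      (Nat.card J ≤ 4 ∧ ∀ i j, ∀ c : ℝ, 0 < c → ∃ a, χ i a ≠ -c * χ j a)) :
    (∃ π : E → M, IsCoveringMap π ∧ Function.Surjective π) ∧
    (∃ d : ℕ, ∀ (x : M) (S : Set (FundamentalGroup M x)), S.Finite →
      ∃ C : ℕ, ∀ n : ℕ, (S ^ n).ncard ≤ C * (n + 1) ^ d) ∧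
    ∀ b, (∀ l, χ l b ≠ 0) → (∀ k, 0 < χ k b → ∃ c, χ k c < 0 ∧ ∀ j ≠ k, 0 < χ j b * χ j c) →
      TopTransitive (α b) ∧ GPS (α b).toHomeomorph := by
  refine man_final α hα χ F hAn (Or.inl ?_)
  rcases h with h | ⟨h1, h2⟩
  · exact h
  · exact exists_flip4 χ h1 h2

end manifold

end Pool.Agent.NH49.TA
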